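import Pool.Agent.Helper71.BD.Force

/-!
# Composition of coverings, transfer of determinacy
-/

set_option autoImplicit false

namespace Pool.Agent.BD

universe u

variable {T T' T'' : GT.{u}}

theorem IsCO.isO {X : Set (Br T)} (h : IsCO X) : IsO X := by
  intro x hx
  obtain ⟨n, hn⟩ := h x
  exact ⟨n, fun y hy => (hn y hy).2 hx⟩

theorem IsCO.compl {X : Set (Br T)} (h : IsCO X) : IsCO Xᶜ := by
  intro x
  obtain ⟨n, hn⟩ := h x
  exact ⟨n, fun y hy => not_congr (hn y hy)⟩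

theorem IsCO.preimage (m : TMap T' T) {X : Set (Br T)} (h : IsCO X) : IsCO (m.br ⁻¹' X) := by
  intro x
  obtain ⟨n, hn⟩ := h (m.br x)
  refine ⟨n, fun y hy => hn (m.br y) ?_⟩
  show m.π (y.b n) = m.π (x.b n)
  rw [hy]

theorem IsO.preimage (m : TMap T' T) {X : Set (Br T)} (h : IsO X) : IsO (m.br ⁻¹' X) := by
  intro x hx
  obtain ⟨n, hn⟩ := h (m.br x) hx
  refine ⟨n, fun y hy => hn (m.br y) ?_⟩
  show m.π (y.b n) = m.π (x.b n)
  rw [hy]

theorem IsO.iUnion {ι : Type*} {X : ι → Set (Br T)} (h : ∀ i, IsO (X i)) : IsO (⋃ i, X i) := by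
  intro x hx
  obtain ⟨i, hi⟩ := Set.mem_iUnion.1 hx
  obtain ⟨n, hn⟩ := h i x hi
  exact ⟨n, fun y hy => Set.mem_iUnion.2 ⟨i, hn y hy⟩⟩

/-- Composition of tree maps. -/
def TMap.comp (m : TMap T' T) (m' : TMap T'' T') : TMap T'' T where
  π p := m.π (m'.π p)
  len_π p := by rw [m.len_π, m'.len_π]
  up_π p := by rw [m.up_π, m'.up_π]

theorem TMap.comp_br (m : TMap T' T) (m' : TMap T'' T') (x : Br T'') :
    (m.comp m').br x = m.br (m'.br x) := rfl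

/-- Composition of coverings. -/
def Cov.comp (c : Cov T' T) (c' : Cov T'' T') : Cov T'' T where
  m := c.m.comp c'.m
  φ i σ := c.φ i (c'.φ i σ)
  loc i σ τ n h := c.loc i _ _ n (c'.loc i σ τ n h)
  lift i hi σ x hx := by
    obtain ⟨y, hy, hyx⟩ := c.lift i hi _ x hx
    obtain ⟨z, hz, hzy⟩ := c'.lift i hi _ y hy
    exact ⟨z, hz, by rw [TMap.comp_br, hzy, hyx]⟩

theorem Cov.Is.mono {c : Cov T' T} {K L : ℕ} (h : c.Is K) (hL : L ≤ K) : c.Is L where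
  inj p q hp hq := h.inj p q (hp.trans hL) (hq.trans hL)
  surj p hp := h.surj p (hp.trans hL)
  strat i σ p hp := h.strat i σ p (lt_of_lt_of_le hp hL)

theorem Cov.Is.comp {c : Cov T' T} {c' : Cov T'' T'} {K : ℕ} (h : c.Is K) (h' : c'.Is K) :
    (c.comp c').Is K where
  inj p q hp hq e := by
    apply h'.inj p q hp hq
    apply h.inj _ _ _ _ e
    · rw [c'.m.len_π]; exact hp
    · rw [c'.m.len_π]; exact hq
  surj p hp := by
    obtain ⟨q, hq⟩ := h.surj p hp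
    have : T'.len q ≤ K := by rw [← c.m.len_π, hq]; exact hp
    obtain ⟨r, hr⟩ := h'.surj q this
    exact ⟨r, by show c.m.π (c'.m.π r) = p; rw [hr, hq]⟩
  strat i σ p hp := by
    show (c.φ i (c'.φ i σ)).1 (c.m.π (c'.m.π p)) = c.m.π (c'.m.π (σ.1 p))
    rw [h.strat i _ _ (by rw [c'.m.len_π]; exact hp), h'.strat i σ p hp]

/-- The identity covering. -/
def Cov.id (T : GT.{u}) : Cov T T where
  m := ⟨fun p => p, fun _ => rfl, fun _ => rfl⟩
  φ _ σ := σ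
  loc _ _ _ _ h := h
  lift _ _ _ x hx := ⟨x, hx, rfl⟩

theorem Cov.id_is (T : GT.{u}) (K : ℕ) : (Cov.id T).Is K where
  inj _ _ _ _ h := h
  surj p _ := ⟨p, rfl⟩
  strat _ _ _ _ := rfl

theorem Unr.of_co {X : Set (Br T)} (h : IsCO X) (K : ℕ) : Unr X K :=
  ⟨T, Cov.id T, Cov.id_is T K, h⟩

theorem Unr.compl {X : Set (Br T)} {K : ℕ} (h : Unr X K) : Unr Xᶜ K := by
  obtain ⟨T', c, hc, hX⟩ := h
  exact ⟨T', c, hc, hX.compl⟩

theorem Unr.mono {X : Set (Br T)} {K L : ℕ} (h : Unr X K) (hL : L ≤ K) : Unr X L := by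
  obtain ⟨T', c, hc, hX⟩ := h
  exact ⟨T', c, hc.mono hL, hX⟩

theorem Unr.comp (c : Cov T' T) {X : Set (Br T)} {K : ℕ} (hc : c.Is K)
    (h : Unr (c.m.br ⁻¹' X) K) : Unr X K := by
  obtain ⟨T'', c', hc', hX⟩ := h
  exact ⟨T'', c.comp c', hc.comp hc', hX⟩

/-- Unravelled games are determined. -/
theorem Unr.det {X : Set (Br T)} {K : ℕ} (h : Unr X K) : Det X := by
  obtain ⟨T', c, -, hX⟩ := h
  rcases det_of_open _ hX.isO with ⟨σ, hσ⟩ | ⟨σ, hσ⟩
  · left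
    refine ⟨c.φ 0 σ, fun x hx => ?_⟩
    obtain ⟨x', hx', rfl⟩ := c.lift 0 (by norm_num) σ x hx
    exact hσ x' hx'
  · right
    refine ⟨c.φ 1 σ, fun x hx => ?_⟩
    obtain ⟨x', hx', rfl⟩ := c.lift 1 (by norm_num) σ x hx
    exact hσ x' hx'

end Pool.Agent.BD
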