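import Mathlib

/-!
# Game trees, branches, strategies and coverings (towards Borel determinacy)
-/

set_option autoImplicit false

namespace Pool.Agent.BD

universe u

/-- A pruned game tree, presented by its type of positions. -/
structure GT where
  P : Type u
  len : P → ℕ
  up : P → P
  root : P
  len_root : len root = 0
  eq_root : ∀ p, len p = 0 → p = root
  len_up : ∀ p, len (up p) = len p - 1
  ex : ∀ p, ∃ q, up q = p ∧ len q = len p + 1

variable (T : GT.{u})

/-- `q` is a child of `p`. -/
def GT.Ch (q p : T.P) : Prop := T.up q = p ∧ T.len q = T.len p + 1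

/-- Ancestor of `p` at level `n` (meaningful for `n ≤ len p`). -/
def GT.anc (p : T.P) (n : ℕ) : T.P := T.up^[T.len p - n] p

/-- Infinite branches (complete plays). -/
structure Br where
  b : ℕ → T.P
  b0 : b 0 = T.root
  ch : ∀ n, T.Ch (b (n + 1)) (b n)

/-- A strategy: a choice of a child for every position (it is used by player `i` only at
positions of parity `i`). -/
def Strat := {σ : T.P → T.P // ∀ p, T.Ch (σ p) p}

variable {T}

/-- The branch `x` is consistent with `σ` used by player `i` (`i = 0` or `1`). -/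
def Cons (i : ℕ) (σ : Strat T) (x : Br T) : Prop :=
  ∀ n, n % 2 = i → x.b (n + 1) = σ.1 (x.b n)

def IsO (U : Set (Br T)) : Prop := ∀ x ∈ U, ∃ n, ∀ y : Br T, y.b n = x.b n → y ∈ U

def IsCO (U : Set (Br T)) : Prop := ∀ x : Br T, ∃ n, ∀ y : Br T, y.b n = x.b n → (y ∈ U ↔ x ∈ U)

/-- Borel sets of branches. -/
@[reducible] def BorelBr (T : GT.{u}) : MeasurableSpace (Br T) := MeasurableSpace.generateFrom {U | IsO U}

/-- Determinacy of the game on `T` in which player `0` wants to reach `W`. -/
def Det (W : Set (Br T)) : Prop :=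
  (∃ σ : Strat T, ∀ x, Cons 0 σ x → x ∈ W) ∨ (∃ σ : Strat T, ∀ x, Cons 1 σ x → x ∉ W)

/-- Level preserving maps of trees. -/
structure TMap (T' T : GT.{u}) where
  π : T'.P → T.P
  len_π : ∀ p, T.len (π p) = T'.len p
  up_π : ∀ p, T.up (π p) = π (T'.up p)

/-- The map on branches induced by a tree map. -/
def TMap.br {T' T : GT.{u}} (m : TMap T' T) (x : Br T') : Br T where
  b n := m.π (x.b n)
  b0 := by
    rw [x.b0]
    apply T.eq_root
    rw [m.len_π, T'.len_root]
  ch n := by
    refine ⟨?_, ?_⟩
    · rw [m.up_π, (x.ch n).1]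
    · rw [m.len_π, m.len_π, (x.ch n).2]

/-- A covering of `T` by `T'` (Martin): a tree map together with a local map on strategies
with the lifting property. -/
structure Cov (T' T : GT.{u}) where
  m : TMap T' T
  φ : ℕ → Strat T' → Strat T
  loc : ∀ i σ τ n, (∀ p, T'.len p ≤ n → σ.1 p = τ.1 p) →
    ∀ p, T.len p ≤ n → (φ i σ).1 p = (φ i τ).1 p
  lift : ∀ i < 2, ∀ σ (x : Br T), Cons i (φ i σ) x → ∃ x' : Br T', Cons i σ x' ∧ m.br x' = x

/-- The covering is an isomorphism up to level `K`. -/
structure Cov.Is {T' T : GT.{u}} (c : Cov T' T) (K : ℕ) : Prop where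
  inj : ∀ p q, T'.len p ≤ K → T'.len q ≤ K → c.m.π p = c.m.π q → p = q
  surj : ∀ p : T.P, T.len p ≤ K → ∃ p', c.m.π p' = p
  strat : ∀ i σ p', T'.len p' < K → (c.φ i σ).1 (c.m.π p') = c.m.π (σ.1 p')

/-- `X` is unravelled by a covering of `T` which is an isomorphism up to level `K`. -/
def Unr (X : Set (Br T)) (K : ℕ) : Prop :=
  ∃ (T' : GT.{u}) (c : Cov T' T), c.Is K ∧ IsCO (c.m.br ⁻¹' X)

/-! ### Basic lemmas -/

theorem GT.Ch.lt {q p : T.P} (h : T.Ch q p) : T.len p < T.len q := by
  rw [h.2]; omega

theorem Br.len (x : Br T) (n : ℕ) : T.len (x.b n) = n := by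
  induction n with
  | zero => rw [x.b0, T.len_root]
  | succ n ih => rw [(x.ch n).2, ih]

theorem Br.up (x : Br T) (n : ℕ) : T.up (x.b (n + 1)) = x.b n := (x.ch n).1

theorem GT.len_iter (p : T.P) (k : ℕ) : T.len (T.up^[k] p) = T.len p - k := by
  induction k with
  | zero => simp
  | succ k ih => rw [Function.iterate_succ_apply', T.len_up, ih]; omega

theorem GT.len_anc (p : T.P) {n : ℕ} (h : n ≤ T.len p) : T.len (T.anc p n) = n := by
  unfold GT.anc; rw [GT.len_iter]; omega

theorem GT.anc_self (p : T.P) : T.anc p (T.len p) = p := by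
  unfold GT.anc; simp

theorem GT.anc_of_eq (p : T.P) {n : ℕ} (h : T.len p = n) : T.anc p n = p := by
  subst h; exact T.anc_self p

theorem GT.anc_up (p : T.P) {n : ℕ} (h : n < T.len p) : T.anc (T.up p) n = T.anc p n := by
  unfold GT.anc
  rw [T.len_up, ← Function.iterate_succ_apply]
  congr 2
  omega

theorem GT.anc_ch {q p : T.P} (h : T.Ch q p) {n : ℕ} (hn : n ≤ T.len p) :
    T.anc q n = T.anc p n := by
  rw [← h.1, GT.anc_up]; rw [h.2]; omega

theorem GT.anc_anc (p : T.P) {n m : ℕ} (hm : m ≤ T.len p) (h : n ≤ m) :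
    T.anc (T.anc p m) n = T.anc p n := by
  unfold GT.anc
  rw [GT.len_iter, ← Function.iterate_add_apply]
  congr 2
  omega

theorem GT.up_anc (p : T.P) {n : ℕ} (h : n < T.len p) : T.up (T.anc p (n + 1)) = T.anc p n := by
  unfold GT.anc
  rw [← Function.iterate_succ_apply' T.up]
  congr 2
  omega

theorem GT.ch_anc (p : T.P) {n : ℕ} (h : n < T.len p) : T.Ch (T.anc p (n + 1)) (T.anc p n) := by
  refine ⟨T.up_anc p h, ?_⟩
  rw [T.len_anc p h, T.len_anc p h.le]

theorem Br.anc (x : Br T) {n m : ℕ} (h : n ≤ m) : T.anc (x.b m) n = x.b n := by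
  induction m with
  | zero =>
    have : n = 0 := by omega
    subst this
    exact T.anc_of_eq _ (x.len 0)
  | succ m ih =>
    by_cases hn : n = m + 1
    · subst hn; exact T.anc_of_eq _ (x.len _)
    · rw [T.anc_ch (x.ch m) (by rw [x.len]; omega)]
      exact ih (by omega)

theorem Br.ext' {x y : Br T} (h : ∀ n, x.b n = y.b n) : x = y := by
  cases x; cases y
  congr
  funext n
  exact h n

theorem Br.eq_of_le {x y : Br T} {n m : ℕ} (h : x.b m = y.b m) (hn : n ≤ m) : x.b n = y.b n := by
  rw [← x.anc hn, ← y.anc hn, h]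

/-- Every position lies on a branch. -/
theorem exists_br (p : T.P) : ∃ x : Br T, x.b (T.len p) = p := by
  classical
  choose f hf using T.ex
  refine ⟨⟨fun n => if n ≤ T.len p then T.anc p n else f^[n - T.len p] p, ?_, ?_⟩, ?_⟩
  · simp only [Nat.zero_le, if_true]
    exact T.eq_root _ (T.len_anc p (Nat.zero_le _))
  · intro n
    by_cases h : n < T.len p
    · have h1 : n + 1 ≤ T.len p := h
      simp only [h1, h.le, if_true]
      exact T.ch_anc p h
    · have h1 : ¬ (n + 1 ≤ T.len p) := by omega
      by_cases h2 : n ≤ T.len p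
      · have h3 : n = T.len p := by omega
        subst h3
        simp only [le_refl, if_true, h1, if_false]
        rw [T.anc_self]
        have h4 : T.len p + 1 - T.len p = 1 := by omega
        rw [h4]
        exact hf p
      · simp only [h1, h2, if_false]
        have h4 : n + 1 - T.len p = (n - T.len p) + 1 := by omega
        rw [h4, Function.iterate_succ_apply']
        exact hf _
  · simp only [le_refl, if_true]
    exact T.anc_self p

noncomputable instance : Inhabited (Strat T) :=
  ⟨⟨fun p => (T.ex p).choose, fun p => (T.ex p).choose_spec⟩⟩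

end Pool.Agent.BD
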