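import Pool.Agent.Helper71.BD.Defs

/-!
# Reachability games and open determinacy (Gale-Stewart)
-/

set_option autoImplicit false

namespace Pool.Agent.BD

universe u

variable {T : GT.{u}}

/-- Data for the game in which player `i`, whose moves are restricted to `S`, wants to reach
`A` (the opponent is not restricted): the winning region `F` and a winning move `μ`. -/
structure Forcing (i : ℕ) (S A : Set T.P) where
  F : Set T.P
  μ : T.P → T.P
  sub : A ⊆ F
  own : ∀ p, T.len p % 2 = i → ∀ q ∈ S, T.Ch q p → q ∈ F → p ∈ F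
  opp : ∀ p, T.len p % 2 ≠ i → (∀ q, T.Ch q p → q ∈ F) → p ∈ F
  mv : ∀ p ∈ F, p ∉ A → T.len p % 2 = i → T.Ch (μ p) p ∧ μ p ∈ S ∧ μ p ∈ F
  all : ∀ p ∈ F, p ∉ A → T.len p % 2 ≠ i → ∀ q, T.Ch q p → q ∈ F
  reach : ∀ (x : Br T) (m : ℕ), x.b m ∈ F →
    (∀ n, m ≤ n → n % 2 = i → x.b n ∉ A → x.b (n + 1) = μ (x.b n)) →
    ∃ n, m ≤ n ∧ x.b n ∈ A

/-- Ordinal ranks for the reachability game. -/
inductive Rk (i : ℕ) (S A : Set T.P) : Ordinal.{u} → T.P → Prop
  | here (a : Ordinal.{u}) (p : T.P) : p ∈ A → Rk i S A a p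
  | own (a b : Ordinal.{u}) (p q : T.P) : T.len p % 2 = i → T.Ch q p → q ∈ S → b < a →
      Rk i S A b q → Rk i S A a p
  | opp (a : Ordinal.{u}) (p : T.P) (f : T.P → Ordinal.{u}) : T.len p % 2 ≠ i →
      (∀ q, T.Ch q p → f q < a) → (∀ q, T.Ch q p → Rk i S A (f q) q) → Rk i S A a p

theorem forcing_nonempty (i : ℕ) (S A : Set T.P) : Nonempty (Forcing i S A) := by
  classical
  let F : Set T.P := {p | ∃ a, Rk i S A a p}
  let rk : T.P → Ordinal.{u} := fun p => sInf {a | Rk i S A a p}
  have hrk : ∀ p ∈ F, Rk i S A (rk p) p := fun p hp =>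
    csInf_mem (s := {a : Ordinal.{u} | Rk i S A a p}) hp
  have hle : ∀ p a, Rk i S A a p → rk p ≤ a := fun p a h => csInf_le' h
  have hmv : ∀ p ∈ F, p ∉ A → T.len p % 2 = i →
      ∃ q, T.Ch q p ∧ q ∈ S ∧ q ∈ F ∧ rk q < rk p := by
    intro p hp hpA hi
    have h := hrk p hp
    generalize hr : rk p = r at h
    cases h with
    | here _ _ h => exact absurd h hpA
    | own _ b _ q h1 h2 h3 h4 h5 => exact ⟨q, h2, h3, ⟨b, h5⟩, lt_of_le_of_lt (hle q b h5) h4⟩
    | opp _ _ f h1 h2 h3 => exact absurd hi h1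
  have hall : ∀ p ∈ F, p ∉ A → T.len p % 2 ≠ i → ∀ q, T.Ch q p → q ∈ F ∧ rk q < rk p := by
    intro p hp hpA hi q hq
    have h := hrk p hp
    generalize hr : rk p = r at h
    cases h with
    | here _ _ h => exact absurd h hpA
    | own _ b _ q h1 h2 h3 h4 h5 => exact absurd h1 hi
    | opp _ _ f h1 h2 h3 => exact ⟨⟨f q, h3 q hq⟩, lt_of_le_of_lt (hle q _ (h3 q hq)) (h2 q hq)⟩
  let μ : T.P → T.P := fun p =>
    if h : ∃ q, T.Ch q p ∧ q ∈ S ∧ q ∈ F ∧ rk q < rk p then h.choose else p
  have hμ : ∀ p ∈ F, p ∉ A → T.len p % 2 = i →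
      T.Ch (μ p) p ∧ μ p ∈ S ∧ μ p ∈ F ∧ rk (μ p) < rk p := by
    intro p hp hpA hi
    have h := hmv p hp hpA hi
    have : μ p = h.choose := dif_pos h
    rw [this]
    exact h.choose_spec
  refine ⟨⟨F, μ, ?_, ?_, ?_, ?_, ?_, ?_⟩⟩
  · intro p hp
    exact ⟨0, Rk.here 0 p hp⟩
  · rintro p hi q hq hqp ⟨b, hb⟩
    exact ⟨Order.succ b, Rk.own _ b p q hi hqp hq (Order.lt_succ b) hb⟩
  · intro p hi h
    refine ⟨⨆ q : {q // T.Ch q p}, Order.succ (rk q.1), Rk.opp _ p rk hi ?_ ?_⟩
    · intro q hq
      refine lt_of_lt_of_le (Order.lt_succ (rk q)) ?_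
      exact Ordinal.le_iSup (fun q : {q // T.Ch q p} => Order.succ (rk q.1)) ⟨q, hq⟩
    · intro q hq
      exact hrk q (h q hq)
  · intro p hp hpA hi
    obtain ⟨h1, h2, h3, -⟩ := hμ p hp hpA hi
    exact ⟨h1, h2, h3⟩
  · intro p hp hpA hi q hq
    exact (hall p hp hpA hi q hq).1
  · intro x m hm hx
    have key : ∀ a : Ordinal.{u}, ∀ m, rk (x.b m) = a → x.b m ∈ F →
        (∀ n, m ≤ n → n % 2 = i → x.b n ∉ A → x.b (n + 1) = μ (x.b n)) →
        ∃ n, m ≤ n ∧ x.b n ∈ A := by
      intro a
      induction a using WellFoundedLT.induction with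
      | ind a ih =>
        intro m hr hm hx
        by_cases hA : x.b m ∈ A
        · exact ⟨m, le_rfl, hA⟩
        · have hnext : x.b (m + 1) ∈ F ∧ rk (x.b (m + 1)) < rk (x.b m) := by
            by_cases hi : m % 2 = i
            · have h1 := hμ (x.b m) hm hA (by rw [x.len]; exact hi)
              rw [hx m le_rfl hi hA]
              exact ⟨h1.2.2.1, h1.2.2.2⟩
            · exact hall (x.b m) hm hA (by rw [x.len]; exact hi) _ (x.ch m)
          rw [hr] at hnext
          obtain ⟨n, hn, hn'⟩ := ih _ hnext.2 (m + 1) rfl hnext.1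
            (fun n hn => hx n (by omega))
          exact ⟨n, by omega, hn'⟩
    exact key _ m rfl hm hx

/-- The chosen forcing data. -/
noncomputable def forcing (i : ℕ) (S A : Set T.P) : Forcing i S A :=
  Classical.choice (forcing_nonempty i S A)

/-- Gale-Stewart: open games are determined. -/
theorem det_of_open (W : Set (Br T)) (hW : IsO W) : Det W := by
  classical
  let A : Set T.P := {p | ∀ x : Br T, x.b (T.len p) = p → x ∈ W}
  let D := forcing 0 Set.univ A
  by_cases hroot : T.root ∈ D.F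
  · left
    refine ⟨⟨fun p => if h : T.Ch (D.μ p) p then D.μ p else (T.ex p).choose, fun p => ?_⟩, ?_⟩
    · by_cases h : T.Ch (D.μ p) p
      · simp only [h, dite_true]
      · simp only [h, dite_false]
        exact (T.ex p).choose_spec
    · intro x hx
      by_contra hxW
      have hnA : ∀ n, x.b n ∉ A := by
        intro n hn
        apply hxW
        exact hn x (by rw [x.len])
      have hmove : ∀ n, x.b n ∈ D.F → n % 2 = 0 → x.b (n + 1) = D.μ (x.b n) := by
        intro n hn hi
        have h1 := hx n hi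
        have h2 := (D.mv (x.b n) hn (hnA n) (by rw [x.len]; exact hi)).1
        simp only [h2, dite_true] at h1
        exact h1
      have hF : ∀ n, x.b n ∈ D.F := by
        intro n
        induction n with
        | zero => rw [x.b0]; exact hroot
        | succ n ih =>
          by_cases hi : n % 2 = 0
          · rw [hmove n ih hi]
            exact (D.mv (x.b n) ih (hnA n) (by rw [x.len]; exact hi)).2.2
          · exact D.all (x.b n) ih (hnA n) (by rw [x.len]; exact hi) _ (x.ch n)
      obtain ⟨n, -, hn⟩ := D.reach x 0 (hF 0) (fun n _ hi _ => hmove n (hF n) hi)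
      exact hnA n hn
  · right
    refine ⟨⟨fun p => if h : ∃ q, T.Ch q p ∧ q ∉ D.F then h.choose else (T.ex p).choose,
      fun p => ?_⟩, ?_⟩
    · by_cases h : ∃ q, T.Ch q p ∧ q ∉ D.F
      · simp only [h, dite_true]
        exact h.choose_spec.1
      · simp only [h, dite_false]
        exact (T.ex p).choose_spec
    · intro x hx
      have hF : ∀ n, x.b n ∉ D.F := by
        intro n
        induction n with
        | zero => rw [x.b0]; exact hroot
        | succ n ih =>
          by_cases hi : n % 2 = 0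
          · intro h
            exact ih (D.own (x.b n) (by rw [x.len]; exact hi) _ (Set.mem_univ _) (x.ch n) h)
          · have h : ∃ q, T.Ch q (x.b n) ∧ q ∉ D.F := by
              by_contra hcon
              push Not at hcon
              exact ih (D.opp (x.b n) (by rw [x.len]; exact hi) hcon)
            have h1 := hx n (by omega)
            simp only [h, dite_true] at h1
            rw [h1]
            exact h.choose_spec.2
      intro hxW
      obtain ⟨n, hn⟩ := hW x hxW
      refine hF n (D.sub ?_)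
      intro y hy
      rw [x.len] at hy
      exact hn y hy

end Pool.Agent.BD
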