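import Pool.Agent.Helper71.BD.Compose

/-!
# Inverse limits of coverings
-/

set_option autoImplicit false

namespace Pool.Agent.BD

universe u

namespace IL

/-- every position of level at most `K + N` of the `N`-th tree lies on a compatible family -/
theorem exists_fam : ∀ (N : ℕ) (T : ℕ → GT.{u}) (c : ∀ n, Cov (T (n + 1)) (T n)) (K : ℕ)
    (_ : ∀ n, (c n).Is (K + n)) (p : (T N).P), (T N).len p ≤ K + N →
      ∃ s : ∀ n, (T n).P, (∀ n, (c n).m.π (s (n + 1)) = s n) ∧ s N = p := by
  intro N
  induction N with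
  | zero =>
    intro T c K hc p hp
    have h1 : ∀ n (q : (T n).P), ∃ r : (T (n + 1)).P, (T n).len q ≤ K + n → (c n).m.π r = q := by
      intro n q
      by_cases h : (T n).len q ≤ K + n
      · obtain ⟨r, hr⟩ := (hc n).surj q h
        exact ⟨r, fun _ => hr⟩
      · exact ⟨(T (n + 1)).root, fun h' => absurd h' h⟩
    choose g hg using h1
    let s : ∀ n, (T n).P := fun n => Nat.rec (motive := fun n => (T n).P) p (fun n q => g n q) n
    have hlen : ∀ n, (T n).len (s n) ≤ K := by
      intro n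
      induction n with
      | zero => exact hp
      | succ n ih =>
        have h2 : (c n).m.π (s (n + 1)) = s n := hg n (s n) (by omega)
        rw [← (c n).m.len_π, h2]
        exact ih
    exact ⟨s, fun n => hg n (s n) (by have := hlen n; omega), rfl⟩
  | succ N ih =>
    intro T c K hc p hp
    obtain ⟨s, hs, hsN⟩ := ih (fun n => T (n + 1)) (fun n => c (n + 1)) (K + 1)
      (fun n => by
        have := hc (n + 1)
        have e : K + (n + 1) = K + 1 + n := by omega
        rwa [e] at this) p (by omega)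
    refine ⟨fun n => match n with
      | 0 => (c 0).m.π (s 0)
      | n + 1 => s n, ?_, hsN⟩
    intro n
    cases n with
    | zero => rfl
    | succ n => exact hs n

theorem fam_unique (T : ℕ → GT.{u}) (c : ∀ n, Cov (T (n + 1)) (T n)) (K : ℕ)
    (hc : ∀ n, (c n).Is (K + n)) (s t : ∀ n, (T n).P)
    (hs : ∀ n, (c n).m.π (s (n + 1)) = s n) (ht : ∀ n, (c n).m.π (t (n + 1)) = t n)
    (N : ℕ) (hN : s N = t N) (hl : (T N).len (s N) ≤ K + N) : s = t := by
  have hlen : ∀ (s : ∀ n, (T n).P), (∀ n, (c n).m.π (s (n + 1)) = s n) →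
      ∀ n, (T n).len (s n) = (T 0).len (s 0) := by
    intro s hs n
    induction n with
    | zero => rfl
    | succ n ih => rw [← (c n).m.len_π, hs n, ih]
  have hup : ∀ n, N ≤ n → s n = t n := by
    intro n hn
    induction n, hn using Nat.le_induction with
    | base => exact hN
    | succ n hn ih =>
      have h1 := hlen s hs (n + 1)
      have h2 := hlen s hs N
      have h3 := hlen s hs n
      have h4 : (T (n + 1)).len (t (n + 1)) = (T n).len (t n) := by
        rw [← (c n).m.len_π, ht n]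
      refine (hc n).inj _ _ (by omega) ?_ ?_
      · rw [h4, ← ih]; omega
      · rw [hs n, ht n, ih]
  have hdown : ∀ k n, n + k = N → s n = t n := by
    intro k
    induction k with
    | zero =>
      intro n hn
      exact hup n (by omega)
    | succ k ih =>
      intro n hn
      rw [← hs n, ← ht n, ih (n + 1) (by omega)]
  funext n
  by_cases h : N ≤ n
  · exact hup n h
  · exact hdown (N - n) n (by omega)

section

variable {T : ℕ → GT.{u}} (c : ∀ n, Cov (T (n + 1)) (T n))

/-- positions of the inverse limit -/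
def Pos : Type u := {s : ∀ n, (T n).P // ∀ n, (c n).m.π (s (n + 1)) = s n}

variable {c}

theorem Pos.len_eq (s : Pos c) (n : ℕ) : (T n).len (s.1 n) = (T 0).len (s.1 0) := by
  induction n with
  | zero => rfl
  | succ n ih => rw [← (c n).m.len_π, s.2 n, ih]

variable {K : ℕ} (hc : ∀ n, (c n).Is (K + n))

include hc in
theorem Pos.unique {s t : Pos c} (N : ℕ) (h : s.1 N = t.1 N) (hl : (T N).len (s.1 N) ≤ K + N) :
    s = t :=
  Subtype.ext (fam_unique T c K hc s.1 t.1 s.2 t.2 N h hl)

include hc in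
theorem Pos.exists_eq (N : ℕ) (p : (T N).P) (hp : (T N).len p ≤ K + N) :
    ∃ s : Pos c, s.1 N = p := by
  obtain ⟨s, hs, hN⟩ := exists_fam N T c K hc p hp
  exact ⟨⟨s, hs⟩, hN⟩

/-- parent of a position of the inverse limit -/
def Pos.up (s : Pos c) : Pos c :=
  ⟨fun n => (T n).up (s.1 n), fun n => by rw [← (c n).m.up_π, s.2 n]⟩

/-- the root of the inverse limit -/
def Pos.root : Pos c :=
  ⟨fun n => (T n).root, fun n => by
    apply (T n).eq_root
    rw [(c n).m.len_π, (T (n + 1)).len_root]⟩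

include hc in
theorem Pos.ex (s : Pos c) : ∃ t : Pos c, t.up = s ∧
    (T 0).len (t.1 0) = (T 0).len (s.1 0) + 1 := by
  set l := (T 0).len (s.1 0) with hl
  obtain ⟨q, hq1, hq2⟩ := (T (l + 1)).ex (s.1 (l + 1))
  have h1 := s.len_eq (l + 1)
  obtain ⟨t, ht⟩ := Pos.exists_eq hc (l + 1) q (by omega)
  have h2 := t.len_eq (l + 1)
  refine ⟨t, ?_, ?_⟩
  · refine Pos.unique hc (l + 1) ?_ ?_
    · change (T (l + 1)).up (t.1 (l + 1)) = s.1 (l + 1)
      rw [ht, hq1]
    · change (T (l + 1)).len ((T (l + 1)).up (t.1 (l + 1))) ≤ _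
      rw [ht, hq1]
      omega
  · rw [← h2, ht]
    omega

/-- the inverse limit -/
def Lim : GT.{u} where
  P := Pos c
  len s := (T 0).len (s.1 0)
  up s := s.up
  root := Pos.root
  len_root := (T 0).len_root
  eq_root s hs := Subtype.ext (funext fun n => (T n).eq_root _ ((s.len_eq n).trans hs))
  len_up s := (T 0).len_up _
  ex s := Pos.ex hc s

/-- the projection to the `n`-th tree -/
def pr (n : ℕ) : TMap (Lim hc) (T n) where
  π s := s.1 n
  len_π s := s.len_eq n
  up_π _ := rfl

open Classical in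
/-- the push-forward of a strategy to the `N`-th tree -/
noncomputable def push (σ : Strat (Lim hc)) (N : ℕ) : Strat (T N) :=
  ⟨fun p => if h : (T N).len p < K + N then
      (σ.1 (Pos.exists_eq hc N p h.le).choose).1 N else ((T N).ex p).choose, by
    intro p
    by_cases h : (T N).len p < K + N
    · simp only [h, dif_pos]
      have h1 := (Pos.exists_eq hc N p h.le).choose_spec
      set s : Pos c := (Pos.exists_eq hc N p h.le).choose with hs
      have h2 := σ.2 s
      constructor
      · have h3 : (σ.1 s).up = s := h2.1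
        have h4 : ((σ.1 s).up).1 N = s.1 N := by rw [h3]
        rw [h1] at h4
        exact h4
      · have h3 : (T 0).len ((σ.1 s).1 0) = (T 0).len (s.1 0) + 1 := h2.2
        have h4 := (σ.1 s).len_eq N
        have h5 := s.len_eq N
        rw [h1] at h5
        change (T N).len ((σ.1 s).1 N) = (T N).len p + 1
        rw [h4, h3, h5]
    · simp only [h, dif_neg, not_false_iff]
      exact ((T N).ex p).choose_spec⟩

theorem push_apply (σ : Strat (Lim hc)) (N : ℕ) (s : Pos c) (h : (T N).len (s.1 N) < K + N) :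
    (push hc σ N).1 (s.1 N) = (σ.1 s).1 N := by
  unfold push
  simp only [h, dif_pos]
  have h1 := (Pos.exists_eq hc N (s.1 N) h.le).choose_spec
  have h2 : (Pos.exists_eq hc N (s.1 N) h.le).choose = s := by
    refine Pos.unique hc N h1 ?_
    rw [h1]
    exact h.le
  rw [h2]

theorem push_loc (σ τ : Strat (Lim hc)) (n : ℕ)
    (h : ∀ p, (Lim hc).len p ≤ n → σ.1 p = τ.1 p) (N : ℕ) (p : (T N).P)
    (hp : (T N).len p ≤ n) : (push hc σ N).1 p = (push hc τ N).1 p := by
  by_cases h1 : (T N).len p < K + N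
  · obtain ⟨s, rfl⟩ := Pos.exists_eq hc N p h1.le
    rw [push_apply hc σ N s h1, push_apply hc τ N s h1, h s]
    have := s.len_eq N
    change (T 0).len (s.1 0) ≤ n
    omega
  · unfold push
    simp only [h1, dif_neg, not_false_iff]

/-- the iterated images of the push-forwards -/
noncomputable def A (i : ℕ) (σ : Strat (Lim hc)) : ∀ (_ : ℕ) (n : ℕ), Strat (T n)
  | 0, n => push hc σ n
  | k + 1, n => (c n).φ i (A i σ k (n + 1))

theorem A_succ (i : ℕ) (σ : Strat (Lim hc)) (k : ℕ) : ∀ n (p : (T n).P),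
    (T n).len p < K + n + k → (A hc i σ (k + 1) n).1 p = (A hc i σ k n).1 p := by
  induction k with
  | zero =>
    intro n p hp
    change ((c n).φ i (push hc σ (n + 1))).1 p = (push hc σ n).1 p
    obtain ⟨s, rfl⟩ := Pos.exists_eq hc n p (by omega)
    rw [push_apply hc σ n s (by omega)]
    have h1 := s.len_eq n
    have h2 := s.len_eq (n + 1)
    have h3 := (hc n).strat i (push hc σ (n + 1)) (s.1 (n + 1)) (by omega)
    rw [s.2 n, push_apply hc σ (n + 1) s (by omega), (σ.1 s).2 n] at h3
    exact h3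
  | succ k ih =>
    intro n p hp
    change ((c n).φ i (A hc i σ (k + 1) (n + 1))).1 p = ((c n).φ i (A hc i σ k (n + 1))).1 p
    refine (c n).loc i _ _ (K + n + k) (fun q hq => ?_) p (by omega)
    exact ih (n + 1) q (by omega)

theorem A_add (i : ℕ) (σ : Strat (Lim hc)) (k j n : ℕ) (p : (T n).P)
    (hp : (T n).len p < K + n + k) : (A hc i σ (k + j) n).1 p = (A hc i σ k n).1 p := by
  induction j with
  | zero => rfl
  | succ j ih =>
    rw [← add_assoc, A_succ hc i σ (k + j) n p (by omega), ih]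

/-- the limit strategies -/
noncomputable def α (i : ℕ) (σ : Strat (Lim hc)) (n : ℕ) : Strat (T n) :=
  ⟨fun p => (A hc i σ ((T n).len p + 1) n).1 p, fun p => (A hc i σ ((T n).len p + 1) n).2 p⟩

theorem α_eq (i : ℕ) (σ : Strat (Lim hc)) (k n : ℕ) (p : (T n).P)
    (hp : (T n).len p < K + n + k) : (α hc i σ n).1 p = (A hc i σ k n).1 p := by
  change (A hc i σ ((T n).len p + 1) n).1 p = (A hc i σ k n).1 p
  by_cases h : k ≤ (T n).len p + 1
  · obtain ⟨j, hj⟩ := Nat.exists_eq_add_of_le h
    rw [hj, A_add hc i σ k j n p hp]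
  · obtain ⟨j, hj⟩ := Nat.exists_eq_add_of_le (not_le.1 h).le
    rw [hj, A_add hc i σ _ j n p (by omega)]

theorem φ_α (i : ℕ) (σ : Strat (Lim hc)) (n : ℕ) :
    (c n).φ i (α hc i σ (n + 1)) = α hc i σ n := by
  apply Subtype.ext
  funext p
  rw [α_eq hc i σ ((T n).len p + 1) n p (by omega)]
  change _ = ((c n).φ i (A hc i σ ((T n).len p) (n + 1))).1 p
  refine (c n).loc i _ _ ((T n).len p) (fun q hq => ?_) p le_rfl
  exact α_eq hc i σ ((T n).len p) (n + 1) q (by omega)

theorem A_loc (i : ℕ) (σ τ : Strat (Lim hc)) (n : ℕ)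
    (h : ∀ p, (Lim hc).len p ≤ n → σ.1 p = τ.1 p) (k : ℕ) : ∀ (N : ℕ) (p : (T N).P),
    (T N).len p ≤ n → (A hc i σ k N).1 p = (A hc i τ k N).1 p := by
  induction k with
  | zero =>
    intro N p hp
    exact push_loc hc σ τ n h N p hp
  | succ k ih =>
    intro N p hp
    exact (c N).loc i _ _ n (fun q hq => ih (N + 1) q hq) p hp

theorem exists_lift (i : ℕ) (hi : i < 2) (σ : Strat (Lim hc)) (x : Br (T 0))
    (hx : Cons i (α hc i σ 0) x) :
    ∃ x' : Br (Lim hc), Cons i σ x' ∧ (pr hc 0).br x' = x := by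
  have step : ∀ n (y : {y : Br (T n) // Cons i (α hc i σ n) y}),
      ∃ z : {z : Br (T (n + 1)) // Cons i (α hc i σ (n + 1)) z}, (c n).m.br z.1 = y.1 := by
    rintro n ⟨y, hy⟩
    rw [← φ_α hc i σ n] at hy
    obtain ⟨z, hz, hzy⟩ := (c n).lift i hi _ y hy
    exact ⟨⟨z, hz⟩, hzy⟩
  choose g hg using step
  let X : ∀ n, {y : Br (T n) // Cons i (α hc i σ n) y} :=
    fun n => Nat.rec (motive := fun n => {y : Br (T n) // Cons i (α hc i σ n) y}) ⟨x, hx⟩
      (fun n y => g n y) n
  have hX : ∀ n, (c n).m.br (X (n + 1)).1 = (X n).1 := fun n => hg n (X n)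
  have hXb : ∀ n k, (c n).m.π ((X (n + 1)).1.b k) = (X n).1.b k := by
    intro n k
    rw [← hX n]
    rfl
  let x' : Br (Lim hc) :=
    { b := fun k => (⟨fun n => (X n).1.b k, fun n => hXb n k⟩ : Pos c)
      b0 := Subtype.ext (funext fun n => (X n).1.b0)
      ch := fun k => by
        refine ⟨Subtype.ext (funext fun n => (X n).1.up k), ?_⟩
        change (T 0).len ((X 0).1.b (k + 1)) = (T 0).len ((X 0).1.b k) + 1
        rw [Br.len, Br.len] }
  refine ⟨x', ?_, ?_⟩
  · intro k hk
    refine Pos.unique hc (k + 1) ?_ ?_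
    · change (X (k + 1)).1.b (k + 1) = (σ.1 (x'.b k)).1 (k + 1)
      have h1 := (X (k + 1)).2 k hk
      have h2 : (T (k + 1)).len ((X (k + 1)).1.b k) = k := Br.len _ _
      rw [h1, α_eq hc i σ 0 (k + 1) _ (by omega)]
      exact push_apply hc σ (k + 1) (x'.b k) (by
        change (T (k + 1)).len ((X (k + 1)).1.b k) < _
        omega)
    · change (T (k + 1)).len ((X (k + 1)).1.b (k + 1)) ≤ _
      rw [Br.len]
      omega
  · exact Br.ext' fun k => rfl

/-- the limit covering -/
noncomputable def limCov : Cov (Lim hc) (T 0) where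
  m := pr hc 0
  φ i σ := α hc i σ 0
  loc i σ τ n h p hp := A_loc hc i σ τ n h _ 0 p hp
  lift i hi σ x hx := exists_lift hc i hi σ x hx

end

end IL

/-- The inverse limit of a sequence of coverings which are isomorphisms on more and more
levels. -/
theorem inv_lim (T : ℕ → GT.{u}) (c : ∀ n, Cov (T (n + 1)) (T n)) (K : ℕ)
    (hc : ∀ n, (c n).Is (K + n)) :
    ∃ (L : GT.{u}) (m : ∀ n, TMap L (T n)) (C : Cov L (T 0)),
      C.m = m 0 ∧ C.Is K ∧ ∀ n (x : Br L), (c n).m.br ((m (n + 1)).br x) = (m n).br x := by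
  refine ⟨IL.Lim hc, IL.pr hc, IL.limCov hc, rfl, ?_, ?_⟩
  · constructor
    · intro p q hp _ h
      exact IL.Pos.unique hc 0 h hp
    · intro p hp
      exact IL.Pos.exists_eq hc 0 p hp
    · intro i σ p hp
      change (IL.α hc i σ 0).1 (p.1 0) = (σ.1 p).1 0
      have h : (T 0).len (p.1 0) < K + 0 := hp
      rw [IL.α_eq hc i σ 0 0 _ h]
      exact IL.push_apply hc σ 0 p h
  · intro n x
    exact Br.ext' fun k => (x.b k).2 n

end Pool.Agent.BD
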