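import Pool.Agent.Helper71.BD.UTree

/-!
# The strategy map of the unravelling tree for player `1`
-/

set_option autoImplicit false

namespace Pool.Agent.BD

universe u

namespace Phi1

open UP0 Classical

variable {T : GT.{u}} {O : Set T.P} {K : ℕ} {hK : K % 2 = 0}

/-- The move dictated by `σ` at the position `v`, if valid. -/
private noncomputable def ap (σ : Strat (UT T O K hK)) (v : UP0 T) : T.P :=
  if h : Valid O K v then (σ.1 ⟨v, h⟩).1.und else (T.ex v.und).choose

private theorem ap_ch (σ : Strat (UT T O K hK)) (v : UP0 T) : T.Ch (ap σ v) v.und := by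
  unfold ap
  split_ifs with h
  · exact UT.und_ch (σ.2 ⟨v, h⟩)
  · exact (T.ex v.und).choose_spec

private theorem ap_of (σ : Strat (UT T O K hK)) (v : UP0 T) (h : Valid O K v) :
    ap σ v = (σ.1 ⟨v, h⟩).1.und := by
  unfold ap
  rw [dif_pos h]

private theorem ap_congr (σ τ : Strat (UT T O K hK)) (n : ℕ)
    (h : ∀ p, (UT T O K hK).len p ≤ n → σ.1 p = τ.1 p) (v : UP0 T) (hv : T.len v.und ≤ n) :
    ap σ v = ap τ v := by
  unfold ap
  split_ifs with hh
  · rw [h ⟨v, hh⟩ hv]
  · rfl

/-- The answers of `σ` to the positions `b q S`. -/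
private noncomputable def fam (σ : Strat (UT T O K hK)) (q : T.P) (S : Set T.P) : UP0 T :=
  if h : Valid O K (b q S) then (σ.1 ⟨b q S, h⟩).1 else a q

private theorem fam_congr (σ τ : Strat (UT T O K hK)) (n : ℕ)
    (h : ∀ p, (UT T O K hK).len p ≤ n → σ.1 p = τ.1 p) (q : T.P) (hq : T.len q ≤ n) :
    fam σ q = fam τ q := by
  funext S
  unfold fam
  split_ifs with hh
  · rw [h ⟨b q S, hh⟩ hq]
  · rfl

private theorem fam_of (σ : Strat (UT T O K hK)) (q : T.P) (S : Set T.P)
    (h : Valid O K (b q S)) : fam σ q S = (σ.1 ⟨b q S, h⟩).1 := by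
  unfold fam
  rw [dif_pos h]

/-- The positions `u` offered by the family. -/
private def Us (O : Set T.P) (K : ℕ) (q : T.P) (f : Set T.P → UP0 T) : Set T.P :=
  {u | ∃ S, Valid O K (b q S) ∧ ∃ r, f S = c r S u}

private noncomputable def Su (O : Set T.P) (K : ℕ) (q : T.P) (f : Set T.P → UP0 T) (u : T.P) :
    Set T.P :=
  if h : u ∈ Us O K q f then h.choose else ∅

private theorem Su_spec (q : T.P) (f : Set T.P → UP0 T) (u : T.P) (h : u ∈ Us O K q f) :
    Valid O K (b q (Su O K q f u)) ∧ ∃ r, f (Su O K q f u) = c r (Su O K q f u) u := by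
  have e : Su O K q f u = h.choose := by
    unfold Su
    rw [dif_pos h]
  rw [e]
  exact h.choose_spec

private noncomputable def G (O : Set T.P) (K : ℕ) (q : T.P) (f : Set T.P → UP0 T) :
    Forcing (T := T) 1 Set.univ (Us O K q f) :=
  forcing 1 Set.univ (Us O K q f)

private def S0 (O : Set T.P) (K : ℕ) (q : T.P) (f : Set T.P → UP0 T) : Set T.P :=
  {s | s ∉ (G O K q f).F}

private theorem S0_QI (q : T.P) (f : Set T.P → UP0 T) : QI (S0 O K q f) := by
  intro s hs
  refine ⟨fun he => ?_, fun ho r hr hF => ?_⟩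
  · by_contra hcon
    push Not at hcon
    refine hs ((G O K q f).opp s (by omega) fun r hr => ?_)
    by_contra hF
    exact hcon r hF hr
  · exact hs ((G O K q f).own s ho r (Set.mem_univ r) hr hF)

/-- The last component of a position of type `d`. -/
private def last2 : UP0 T → Set T.P
  | a _ => ∅
  | b _ _ => ∅
  | c _ _ _ => ∅
  | d _ _ S2 => S2

/-- The rule at positions of length at least `K + 1`. -/
private noncomputable def rule (σ : Strat (UT T O K hK)) (q : T.P) (f : Set T.P → UP0 T)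
    (p : T.P) : T.P :=
  if hE : ∃ n, K + 2 ≤ n ∧ n ≤ T.len p ∧ T.anc p n ∈ Us O K q f then
    ap σ (c p (Su O K q f (T.anc p (Nat.find hE))) (T.anc p (Nat.find hE)))
  else if p ∈ (G O K q f).F then
    (if T.Ch ((G O K q f).μ p) p then (G O K q f).μ p else (T.ex p).choose)
  else if T.len p = K + 1 then ap σ (b p (S0 O K q f))
  else ap σ (d p (S0 O K q f) (last2 (f (S0 O K q f))))

private theorem rule_ch (σ : Strat (UT T O K hK)) (q : T.P) (f : Set T.P → UP0 T) (p : T.P) :
    T.Ch (rule σ q f p) p := by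
  unfold rule
  split_ifs with h1 h2 h3 h4
  · exact ap_ch σ (c p _ _)
  · exact h3
  · exact (T.ex p).choose_spec
  · exact ap_ch σ (b p _)
  · exact ap_ch σ (d p _ _)

private theorem rule_congr (σ τ : Strat (UT T O K hK)) (n : ℕ)
    (h : ∀ p, (UT T O K hK).len p ≤ n → σ.1 p = τ.1 p) (q : T.P) (f : Set T.P → UP0 T)
    (p : T.P) (hp : T.len p ≤ n) : rule σ q f p = rule τ q f p := by
  unfold rule
  split_ifs with h1 h2 h3 h4
  · exact ap_congr σ τ n h _ hp
  · rfl
  · rfl
  · exact ap_congr σ τ n h _ hp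
  · exact ap_congr σ τ n h _ hp

private noncomputable def phi (σ : Strat (UT T O K hK)) : Strat T :=
  ⟨fun p => if T.len p ≤ K then ap σ (a p)
    else rule σ (T.anc p (K + 1)) (fam σ (T.anc p (K + 1))) p, by
    intro p
    by_cases hp : T.len p ≤ K
    · simp only [hp, if_true]
      exact ap_ch σ (a p)
    · simp only [hp, if_false]
      exact rule_ch σ _ _ p⟩

private theorem phi_le (σ : Strat (UT T O K hK)) (p : T.P) (hp : T.len p ≤ K) :
    (phi σ).1 p = ap σ (a p) := by
  show (if T.len p ≤ K then ap σ (a p)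
    else rule σ (T.anc p (K + 1)) (fam σ (T.anc p (K + 1))) p) = _
  rw [if_pos hp]

private theorem phi_gt (σ : Strat (UT T O K hK)) (p : T.P) (hp : ¬ T.len p ≤ K) :
    (phi σ).1 p = rule σ (T.anc p (K + 1)) (fam σ (T.anc p (K + 1))) p := by
  show (if T.len p ≤ K then ap σ (a p)
    else rule σ (T.anc p (K + 1)) (fam σ (T.anc p (K + 1))) p) = _
  rw [if_neg hp]

private theorem phi_loc (σ τ : Strat (UT T O K hK)) (n : ℕ)
    (h : ∀ p, (UT T O K hK).len p ≤ n → σ.1 p = τ.1 p) (p : T.P) (hp : T.len p ≤ n) :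
    (phi σ).1 p = (phi τ).1 p := by
  by_cases hl : T.len p ≤ K
  · rw [phi_le σ p hl, phi_le τ p hl]
    exact ap_congr σ τ n h _ hp
  · rw [phi_gt σ p hl, phi_gt τ p hl]
    have hq : T.len (T.anc p (K + 1)) ≤ n := by
      rw [T.len_anc p (by omega)]; omega
    rw [fam_congr σ τ n h _ hq]
    exact rule_congr σ τ n h _ _ p hp

private theorem phi_strat (σ : Strat (UT T O K hK)) (v : (UT T O K hK).P)
    (hv : (UT T O K hK).len v < K) : (phi σ).1 v.1.und = (σ.1 v).1.und := by
  have hv' : T.len v.1.und < K := hv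
  have e : v.1 = a v.1.und := by
    obtain ⟨v, hval⟩ := v
    cases v with
    | a p => rfl
    | b q S => exact absurd hval.1 (by have : T.len q < K := hv'; omega)
    | c r S u => exact absurd hval.1 (by have : T.len r < K := hv'; omega)
    | d r S S2 => exact absurd hval.1 (by have : T.len r < K := hv'; omega)
  have hva : Valid O K (a v.1.und) := hv'.le
  rw [phi_le σ _ hv'.le, ap_of σ _ hva]
  congr 2
  exact congrArg σ.1 (Subtype.ext e.symm)

/-- The common part of consistency on low levels. -/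
private theorem cons_low (τ : Strat (UT T O K hK)) (x : Br T) (hx : Cons 1 (phi τ) x)
    (x' : Br (UT T O K hK)) (h1 : ∀ n, n ≤ K → (x'.b n).1 = a (x.b n)) (n : ℕ) (hn : n % 2 = 1)
    (hnK : n < K) : x'.b (n + 1) = τ.1 (x'.b n) := by
  have hlen : T.len (x'.b n).1.und < K := by
    rw [h1 n hnK.le]
    show T.len (x.b n) < K
    rw [x.len]; exact hnK
  have e1 := UT.ch_a (τ.2 (x'.b n)) hlen
  have e2 : x.b (n + 1) = (τ.1 (x'.b n)).1.und := by
    rw [hx n hn]
    have e3 : x.b n = (x'.b n).1.und := by rw [h1 n hnK.le]; rfl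
    rw [e3]
    exact phi_strat τ (x'.b n) hlen
  apply Subtype.ext
  rw [h1 (n + 1) (by omega), e1, e2]

private theorem und_br (x : Br T) (x' : Br (UT T O K hK))
    (h1 : ∀ n, (x'.b n).1.und = x.b n) : (UTm T O K hK).br x' = x := by
  apply Br.ext'
  intro n
  exact h1 n

private theorem anc_K (x : Br T) {n : ℕ} (hn : K + 1 ≤ n) :
    T.anc (x.b n) (K + 1) = x.b (K + 1) := x.anc hn

/-- The move of the strategy on a branch. -/
private theorem move (τ : Strat (UT T O K hK)) (x : Br T) (hx : Cons 1 (phi τ) x) (n : ℕ)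
    (hn : n % 2 = 1) (hK1 : K + 1 ≤ n) :
    x.b (n + 1) = rule τ (x.b (K + 1)) (fam τ (x.b (K + 1))) (x.b n) := by
  rw [hx n hn, phi_gt τ _ (by rw [x.len]; omega), anc_K x hK1]

private theorem lift1 (τ : Strat (UT T O K hK)) (x : Br T) (hx : Cons 1 (phi τ) x)
    (hE : ∃ n, K + 2 ≤ n ∧ x.b n ∈ Us O K (x.b (K + 1)) (fam τ (x.b (K + 1)))) :
    ∃ x' : Br (UT T O K hK), Cons 1 τ x' ∧ (UTm T O K hK).br x' = x := by
  set q := x.b (K + 1) with hq
  set f := fam τ q with hf
  have hn0 := Nat.find_spec hE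
  set n0 := Nat.find hE with hn0d
  obtain ⟨hn0K, hmem⟩ := hn0
  have hmin : ∀ n, K + 2 ≤ n → n < n0 → x.b n ∉ Us O K q f := by
    intro n h1 h2 h3
    exact Nat.find_min hE h2 ⟨h1, h3⟩
  obtain ⟨hval, r, hr⟩ := Su_spec (O := O) (K := K) q f (x.b n0) hmem
  set S := Su O K q f (x.b n0) with hS
  have hr' : (τ.1 ⟨b q S, hval⟩).1 = c r S (x.b n0) := by
    rw [← fam_of τ q S hval]; exact hr
  have hvc : Valid O K (c r S (x.b n0)) := by
    rw [← hr']; exact (τ.1 ⟨b q S, hval⟩).2
  obtain ⟨v1, v2, v3, v4, v5, v6⟩ := hvc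
  have hp : ∀ n, K + 1 ≤ n → n ≤ n0 → x.b n ∈ S := by
    intro n h1 h2
    have h3 := v4 n h1 (by rw [x.len]; exact h2)
    rwa [x.anc h2] at h3
  obtain ⟨x', w1, w2, w3⟩ := UT.br_c (hK := hK) x S v3 n0 hn0K v5 hp
  refine ⟨x', ?_, ?_⟩
  · intro n hn
    by_cases hnK : n < K
    · exact cons_low τ x hx x' w1 n hn hnK
    · by_cases hn1 : n = K + 1
      · subst hn1
        have e0 : x'.b (K + 1) = ⟨b q S, hval⟩ := Subtype.ext w2
        rw [e0]
        apply Subtype.ext
        rw [hr', w3 (K + 1 + 1) (by omega)]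
        have hlr : T.len r = K + 2 := by
          have h5 := (τ.2 ⟨b q S, hval⟩).2
          have h6 : T.len (τ.1 ⟨b q S, hval⟩).1.und = T.len q + 1 := h5
          rw [hr'] at h6
          have h7 : T.len r = T.len q + 1 := h6
          rw [h7, hq, x.len]
        have h8 := v6 (K + 2) (by omega) (by rw [x.len]; exact hn0K)
        rw [T.anc_of_eq r hlr, x.anc hn0K] at h8
        rw [h8]
      · have hn2 : K + 2 ≤ n := by omega
        have e1 := UT.ch_c (τ.2 (x'.b n)) (w3 n hn2)
        apply Subtype.ext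
        rw [w3 (n + 1) (by omega), e1]
        have hl : T.len (τ.1 (x'.b n)).1.und = n + 1 := by
          have h5 := (τ.2 (x'.b n)).2
          have h6 : T.len (τ.1 (x'.b n)).1.und = T.len (x'.b n).1.und + 1 := h5
          rw [h6, w3 n hn2]
          show T.len (x.b n) + 1 = n + 1
          rw [x.len]
        by_cases hnn : n < n0
        · have hv := (τ.1 (x'.b n)).2
          rw [e1] at hv
          obtain ⟨-, -, -, -, -, h6⟩ := hv
          have h8 := h6 (n + 1) (by omega) (by rw [x.len]; omega)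
          rw [T.anc_of_eq _ hl, x.anc (by omega)] at h8
          rw [h8]
        · have hmv := move τ x hx n hn (by omega)
          rw [← hq, ← hf] at hmv
          have hEx : ∃ k, K + 2 ≤ k ∧ k ≤ T.len (x.b n) ∧ T.anc (x.b n) k ∈ Us O K q f := by
            refine ⟨n0, hn0K, by rw [x.len]; omega, ?_⟩
            rw [x.anc (by omega)]
            exact hmem
          have hfind : Nat.find hEx = n0 := by
            rw [Nat.find_eq_iff]
            refine ⟨⟨hn0K, by rw [x.len]; omega, by rw [x.anc (by omega)]; exact hmem⟩, ?_⟩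
            rintro k hk ⟨k1, k2, k3⟩
            rw [x.len] at k2
            rw [x.anc k2] at k3
            exact hmin k k1 hk k3
          unfold rule at hmv
          rw [dif_pos hEx, hfind, x.anc (by omega)] at hmv
          rw [← hS] at hmv
          have hvv : Valid O K (c (x.b n) S (x.b n0)) := by
            rw [← w3 n hn2]; exact (x'.b n).2
          rw [ap_of τ _ hvv] at hmv
          have e2 : (⟨c (x.b n) S (x.b n0), hvv⟩ : (UT T O K hK).P) = x'.b n :=
            Subtype.ext (w3 n hn2).symm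
          rw [hmv]
          have e3 : (τ.1 ⟨c (x.b n) S (x.b n0), hvv⟩).1.und = (τ.1 (x'.b n)).1.und := by
            rw [← e2]
          rw [e3]
  · apply und_br
    intro n
    by_cases h1 : n ≤ K
    · rw [w1 n h1]; rfl
    · by_cases h2 : n = K + 1
      · subst h2; rw [w2]; rfl
      · rw [w3 n (by omega)]; rfl

private theorem lift2 (τ : Strat (UT T O K hK)) (x : Br T) (hx : Cons 1 (phi τ) x)
    (hE : ¬ ∃ n, K + 2 ≤ n ∧ x.b n ∈ Us O K (x.b (K + 1)) (fam τ (x.b (K + 1)))) :
    ∃ x' : Br (UT T O K hK), Cons 1 τ x' ∧ (UTm T O K hK).br x' = x := by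
  set q := x.b (K + 1) with hq
  set f := fam τ q with hf
  have hE' : ∀ n, K + 2 ≤ n → x.b n ∉ Us O K q f := fun n h1 h2 => hE ⟨n, h1, h2⟩
  have hUs : ∀ u ∈ Us O K q f, K + 2 ≤ T.len u := by
    rintro u ⟨S, hval, r, hr⟩
    have hr' : (τ.1 ⟨b q S, hval⟩).1 = c r S u := by
      rw [← fam_of τ q S hval]; exact hr
    have hvc : Valid O K (c r S u) := by
      rw [← hr']; exact (τ.1 ⟨b q S, hval⟩).2
    exact hvc.2.1
  have hE'' : ∀ n, x.b n ∉ Us O K q f := by
    intro n hn
    have := hUs _ hn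
    rw [x.len] at this
    exact hE' n this hn
  have hnE : ∀ n, ¬ ∃ k, K + 2 ≤ k ∧ k ≤ T.len (x.b n) ∧ T.anc (x.b n) k ∈ Us O K q f := by
    rintro n ⟨k, k1, k2, k3⟩
    rw [x.len] at k2
    rw [x.anc k2] at k3
    exact hE' k k1 k3
  -- never in the winning region
  have hF : ∀ m, K + 1 ≤ m → x.b m ∉ (G O K q f).F := by
    intro m hm hmem
    have hrule : ∀ n, m ≤ n → n % 2 = 1 → x.b n ∈ (G O K q f).F →
        x.b (n + 1) = (G O K q f).μ (x.b n) := by
      intro n hmn hn hnF
      have hmv := move τ x hx n hn (by omega)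
      rw [← hq, ← hf] at hmv
      unfold rule at hmv
      rw [dif_neg (hnE n), if_pos hnF, if_pos] at hmv
      · exact hmv
      · exact ((G O K q f).mv _ hnF (hE'' n) (by rw [x.len]; exact hn)).1
    have hall : ∀ n, m ≤ n → x.b n ∈ (G O K q f).F := by
      intro n hmn
      induction n, hmn using Nat.le_induction with
      | base => exact hmem
      | succ n hmn ih =>
        by_cases hn : n % 2 = 1
        · rw [hrule n hmn hn ih]
          exact ((G O K q f).mv _ ih (hE'' n) (by rw [x.len]; exact hn)).2.2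
        · exact (G O K q f).all _ ih (hE'' n) (by rw [x.len]; exact hn) _ (x.ch n)
    obtain ⟨n, -, hn⟩ := (G O K q f).reach x m hmem
      (fun n hmn hn _ => hrule n hmn hn (hall n hmn))
    exact hE'' n hn
  set S := S0 O K q f with hS
  have hQI : QI S := S0_QI q f
  have hxS : ∀ n, K + 1 ≤ n → x.b n ∈ S := fun n hn => hF n hn
  have hval : Valid O K (b q S) := ⟨by rw [hq, x.len], hQI, hxS (K + 1) le_rfl⟩
  have hlq : T.len q = K + 1 := by rw [hq, x.len]
  have hfS : f S = (τ.1 ⟨b q S, hval⟩).1 := fam_of τ q S hval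
  have hvw : Valid O K (τ.1 ⟨b q S, hval⟩).1 := (τ.1 ⟨b q S, hval⟩).2
  have hlr : T.len (τ.1 ⟨b q S, hval⟩).1.und = K + 2 := by
    have h5 := (τ.2 ⟨b q S, hval⟩).2
    have h6 : T.len (τ.1 ⟨b q S, hval⟩).1.und = T.len q + 1 := h5
    rw [h6, hlq]
  rcases UT.ch_b (τ.2 ⟨b q S, hval⟩) rfl with ⟨u, hu⟩ | ⟨S2, hd⟩
  · exfalso
    have huU : u ∈ Us O K q f := ⟨S, hval, _, hfS.trans hu⟩
    rw [hu] at hvw
    obtain ⟨-, h2, -, h4, -, -⟩ := hvw
    have h5 := h4 (T.len u) (by omega) le_rfl
    rw [T.anc_self] at h5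
    exact h5 ((G O K q f).sub huU)
  · set r := (τ.1 ⟨b q S, hval⟩).1.und with hr
    have hlast : last2 (f S) = S2 := by
      rw [hfS, hd]; rfl
    rw [hd] at hvw
    obtain ⟨v1, v2, v3, v4, v5⟩ := hvw
    have hxr : x.b (K + 2) = r := by
      have hmv := move τ x hx (K + 1) (by omega) le_rfl
      rw [← hq, ← hf] at hmv
      unfold rule at hmv
      rw [hq, dif_neg (hnE (K + 1)), if_neg (hF (K + 1) le_rfl), if_pos (x.len (K + 1))] at hmv
      rw [← hq, ← hS, ap_of τ _ hval] at hmv
      exact hmv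
    have hvd : ∀ n, K + 2 ≤ n → (∀ k, K + 2 ≤ k → k ≤ n → x.b k ∈ S2) →
        Valid O K (d (x.b n) S S2) := by
      intro n hn hk
      refine ⟨by rw [x.len]; exact hn, hQI, ?_, v4, ?_⟩
      · rw [x.anc (by omega)]; exact hxS _ le_rfl
      · intro k k1 k2
        rw [x.len] at k2
        rw [x.anc k2]
        exact hk k k1 k2
    have hmvD : ∀ n, K + 2 ≤ n → n % 2 = 1 → ∀ hv : Valid O K (d (x.b n) S S2),
        x.b (n + 1) = (τ.1 ⟨d (x.b n) S S2, hv⟩).1.und := by
      intro n hn ho hv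
      have hmv := move τ x hx n ho (by omega)
      rw [← hq, ← hf] at hmv
      unfold rule at hmv
      rw [dif_neg (hnE n), if_neg (hF n (by omega)), if_neg (by rw [x.len]; omega)] at hmv
      rw [← hS, hlast, ap_of τ _ hv] at hmv
      exact hmv
    have hS2 : ∀ n, K + 2 ≤ n → ∀ k, K + 2 ≤ k → k ≤ n → x.b k ∈ S2 := by
      intro n hn
      induction n, hn using Nat.le_induction with
      | base =>
        intro k k1 k2
        have hk : k = K + 2 := by omega
        subst hk
        rw [hxr]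
        have h5 := v5 (K + 2) le_rfl (by rw [hlr])
        rwa [T.anc_of_eq r hlr] at h5
      | succ n hn ih =>
        intro k k1 k2
        by_cases hk : k ≤ n
        · exact ih k k1 hk
        · have hk : k = n + 1 := by omega
          subst hk
          by_cases ho : n % 2 = 1
          · have hv := hvd n hn ih
            have e := UT.ch_d (τ.2 ⟨d (x.b n) S S2, hv⟩) rfl
            have hv2 := (τ.1 ⟨d (x.b n) S S2, hv⟩).2
            rw [e] at hv2
            obtain ⟨-, -, -, -, h5⟩ := hv2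
            rw [← hmvD n hn ho hv] at h5
            have h6 := h5 (n + 1) (by omega) (by rw [x.len])
            rwa [x.anc le_rfl] at h6
          · have h6 := (v4.2.2 (x.b n) (ih n hn le_rfl)).2 (by rw [x.len]; omega)
            exact h6 _ (hxS (n + 1) (by omega)) (x.ch n)
    have hS2' : ∀ n, K + 2 ≤ n → x.b n ∈ S2 := fun n hn => hS2 n hn n hn le_rfl
    obtain ⟨x', w1, w2, w3⟩ := UT.br_d (hK := hK) x S S2 hQI (hxS _ le_rfl) v4 hS2'
    refine ⟨x', ?_, ?_⟩
    · intro n hn
      by_cases hnK : n < K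
      · exact cons_low τ x hx x' w1 n hn hnK
      · by_cases hn1 : n = K + 1
        · subst hn1
          have e0 : x'.b (K + 1) = ⟨b q S, hval⟩ := Subtype.ext w2
          rw [e0]
          apply Subtype.ext
          rw [hd, w3 (K + 1 + 1) (by omega)]
          rw [show K + 1 + 1 = K + 2 from rfl, hxr]
        · have hn2 : K + 2 ≤ n := by omega
          have e1 := UT.ch_d (τ.2 (x'.b n)) (w3 n hn2)
          apply Subtype.ext
          rw [w3 (n + 1) (by omega), e1]
          have hv := hvd n hn2 (fun k k1 k2 => hS2' k k1)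
          have e2 : (⟨d (x.b n) S S2, hv⟩ : (UT T O K hK).P) = x'.b n :=
            Subtype.ext (w3 n hn2).symm
          rw [hmvD n hn2 hn hv, e2]
    · apply und_br
      intro n
      by_cases h1 : n ≤ K
      · rw [w1 n h1]; rfl
      · by_cases h2 : n = K + 1
        · subst h2; rw [w2]; rfl
        · rw [w3 n (by omega)]; rfl

end Phi1

theorem phi1_exists (T : GT.{u}) (O : Set T.P) (K : ℕ) (hK : K % 2 = 0) :
    ∃ φ : Strat (UT T O K hK) → Strat T,
      (∀ σ τ n, (∀ p, (UT T O K hK).len p ≤ n → σ.1 p = τ.1 p) →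
        ∀ p, T.len p ≤ n → (φ σ).1 p = (φ τ).1 p) ∧
      (∀ σ (x : Br T), Cons 1 (φ σ) x →
        ∃ x' : Br (UT T O K hK), Cons 1 σ x' ∧ (UTm T O K hK).br x' = x) ∧
      (∀ σ (v : (UT T O K hK).P), (UT T O K hK).len v < K →
        (φ σ).1 v.1.und = (σ.1 v).1.und) := by
  classical
  refine ⟨Phi1.phi, fun σ τ n h p hp => Phi1.phi_loc σ τ n h p hp, fun σ x hx => ?_,
    fun σ v hv => Phi1.phi_strat σ v hv⟩
  by_cases hE : ∃ n, K + 2 ≤ n ∧ x.b n ∈ Phi1.Us O K (x.b (K + 1)) (Phi1.fam σ (x.b (K + 1)))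
  · exact Phi1.lift1 σ x hx hE
  · exact Phi1.lift2 σ x hx hE

end Pool.Agent.BD
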