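import Pool.Agent.Helper71.BD.Phi0
import Pool.Agent.Helper71.BD.Phi1
import Pool.Agent.Helper71.BD.InvLim

/-!
# Borel determinacy on game trees
-/

set_option autoImplicit false

namespace Pool.Agent.BD

universe u

variable {T : GT.{u}}

/-- Closed sets can be unravelled. -/
theorem unr_closed (O : Set T.P) (hO : ∀ p q, T.Ch q p → p ∈ O → q ∈ O) (K : ℕ) :
    Unr {x : Br T | ∀ n, x.b n ∉ O} K := by
  obtain ⟨f0, l0, li0, s0⟩ := phi0_exists T O (2 * K) (by omega)
  obtain ⟨f1, l1, li1, s1⟩ := phi1_exists T O (2 * K) (by omega)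
  have hK : K ≤ 2 * K := by omega
  refine Unr.mono (K := 2 * K) ⟨UT T O (2 * K) (by omega),
    ⟨UTm T O (2 * K) (by omega), fun i σ => if i = 0 then f0 σ else f1 σ, ?_, ?_⟩,
    ⟨?_, ?_, ?_⟩, UT.isCO hO⟩ hK
  · intro i σ τ n h p hp
    by_cases hi : i = 0
    · simp only [hi, if_true]; exact l0 σ τ n h p hp
    · simp only [hi, if_false]; exact l1 σ τ n h p hp
  · intro i hi σ x hx
    interval_cases i
    · simp only [if_true] at hx
      exact li0 σ x hx
    · simp only [one_ne_zero, if_false] at hx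
      exact li1 σ x hx
  · intro p q hp hq h
    exact UT.inj p q hp hq h
  · intro p hp
    obtain ⟨v, hv⟩ := UT.surj (T := T) (O := O) (K := 2 * K) (hK := by omega) p hp
    exact ⟨v, by show v.1.und = p; rw [hv]; rfl⟩
  · intro i σ v hv
    by_cases hi : i = 0
    · simp only [hi, if_true]; exact s0 σ v hv
    · simp only [hi, if_false]; exact s1 σ v hv

theorem unr_open (U : Set (Br T)) (hU : IsO U) (K : ℕ) : Unr U K := by
  have hO : ∀ p q, T.Ch q p → p ∈ {p : T.P | ∀ x : Br T, x.b (T.len p) = p → x ∈ U} →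
      q ∈ {p : T.P | ∀ x : Br T, x.b (T.len p) = p → x ∈ U} := by
    intro p q hq hp x hx
    refine hp x ?_
    have h1 : T.len q = T.len p + 1 := hq.2
    rw [h1] at hx
    rw [← x.up, hx]
    exact hq.1
  have h := (unr_closed (T := T) {p | ∀ x : Br T, x.b (T.len p) = p → x ∈ U} hO K).compl
  have e : {x : Br T | ∀ n, x.b n ∉ {p : T.P | ∀ x : Br T, x.b (T.len p) = p → x ∈ U}}ᶜ = U := by
    ext x
    simp only [Set.mem_compl_iff, Set.mem_setOf_eq]
    constructor
    · intro hx
      by_contra hxU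
      exact hx fun n hn => hxU (hn x (by rw [x.len]))
    · intro hx hn
      obtain ⟨n, hn'⟩ := hU x hx
      exact hn n fun y hy => hn' y (by rwa [x.len] at hy)
  rw [e] at h
  exact h

/-- Borel sets can be unravelled. -/
theorem unr_borel (X : Set (Br T)) (hX : @MeasurableSet (Br T) (BorelBr T) X) (K : ℕ) : Unr X K := by
  have main : ∀ (T' : GT.{u}) (m : TMap T' T) (K : ℕ), Unr (m.br ⁻¹' X) K := by
    refine MeasurableSpace.generateFrom_induction {U : Set (Br T) | IsO U}
      (fun X _ => ∀ (T' : GT.{u}) (m : TMap T' T) (K : ℕ), Unr (m.br ⁻¹' X) K)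
      ?_ ?_ ?_ ?_ X hX
    · intro U hU _ T' m K
      exact unr_open _ (IsO.preimage m hU) K
    · intro T' m K
      refine Unr.of_co ?_ K
      intro x
      exact ⟨0, fun y _ => by simp⟩
    · intro U _ hU T' m K
      rw [Set.preimage_compl]
      exact (hU T' m K).compl
    · intro f _ hf T' m K
      -- the sequence of trees over `T`
      let st : ℕ → (Σ T₁ : GT.{u}, TMap T₁ T) := fun n =>
        Nat.rec ⟨T', m⟩ (fun n r => ⟨(hf n r.1 r.2 (K + n)).choose,
          r.2.comp (hf n r.1 r.2 (K + n)).choose_spec.choose.m⟩) n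
      let c : ∀ n, Cov (st (n + 1)).1 (st n).1 := fun n =>
        (hf n (st n).1 (st n).2 (K + n)).choose_spec.choose
      have hc : ∀ n, (c n).Is (K + n) := fun n =>
        (hf n (st n).1 (st n).2 (K + n)).choose_spec.choose_spec.1
      have hco : ∀ n, IsCO ((c n).m.br ⁻¹' ((st n).2.br ⁻¹' f n)) := fun n =>
        (hf n (st n).1 (st n).2 (K + n)).choose_spec.choose_spec.2
      have hst : ∀ n, (st (n + 1)).2 = (st n).2.comp (c n).m := fun n => rfl
      obtain ⟨L, m', C, hCm, hCK, hm'⟩ := inv_lim (fun n => (st n).1) c K hc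
      have hbr : ∀ n (x : Br L), (st n).2.br ((m' n).br x) = m.br ((m' 0).br x) := by
        intro n
        induction n with
        | zero => intro x; rfl
        | succ n ih =>
          intro x
          rw [hst, TMap.comp_br, hm', ih]
      have hopen : IsO (⋃ n, {x : Br L | m.br ((m' 0).br x) ∈ f n}) := by
        refine IsO.iUnion (fun n => IsCO.isO ?_)
        have h1 := IsCO.preimage (m' (n + 1)) (hco n)
        have h2 : (m' (n + 1)).br ⁻¹' ((c n).m.br ⁻¹' ((st n).2.br ⁻¹' f n)) =
            {x : Br L | m.br ((m' 0).br x) ∈ f n} := by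
          ext x
          simp only [Set.mem_preimage, Set.mem_setOf_eq]
          rw [hm', hbr]
        rwa [h2] at h1
      have hun := unr_open _ hopen K
      refine Unr.comp C hCK ?_
      have h3 : C.m.br ⁻¹' (m.br ⁻¹' ⋃ n, f n) = ⋃ n, {x : Br L | m.br ((m' 0).br x) ∈ f n} := by
        ext x
        simp only [Set.mem_preimage, Set.mem_iUnion, Set.mem_setOf_eq]
        rw [hCm]
      rw [h3]
      exact hun
  exact main T ⟨fun p => p, fun _ => rfl, fun _ => rfl⟩ K

/-- **Borel determinacy** (Martin). -/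
theorem borel_det (X : Set (Br T)) (hX : @MeasurableSet (Br T) (BorelBr T) X) : Det X :=
  (unr_borel X hX 0).det

end Pool.Agent.BD
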