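import Pool.Agent.Helper71.BD.UTree

/-!
# The strategy map of the unravelling tree for player `0`
-/

set_option autoImplicit false

namespace Pool.Agent.BD

universe u

open UP0

namespace Phi0

variable {T : GT.{u}} {O : Set T.P} {K : ℕ} {hK : K % 2 = 0}

theorem len_anc_le (p : T.P) (n : ℕ) : T.len (T.anc p n) ≤ n := by
  unfold GT.anc
  rw [GT.len_iter]
  omega

theorem len_anc_le' (p : T.P) (n : ℕ) : T.len (T.anc p n) ≤ T.len p := by
  unfold GT.anc
  rw [GT.len_iter]
  omega

/-- The set of a position of level `K + 1`. -/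
def setOf0 : UP0 T → Set T.P
  | b _ S => S
  | _ => ∅

/-- The set chosen by player `0` at level `K + 1`. -/
noncomputable def setAt (σ : Strat (UT T O K hK)) (p : T.P) : Set T.P :=
  setOf0 (σ.1 ⟨a (T.anc p K), len_anc_le p K⟩).1

/-- The positions of `S` outside of the winning region. -/
def rest (O S : Set T.P) : Set T.P := {s | s ∈ S ∧ s ∉ (forcing 0 S O).F}

open Classical in
/-- The moves after level `K`. -/
noncomputable def core0 (σ : Strat (UT T O K hK)) (S : Set T.P) (p : T.P) : T.P :=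
  if h : ∃ n, K + 2 ≤ n ∧ n ≤ T.len p ∧ T.anc p n ∈ O then
    (if hv : Valid O K (c p S (T.anc p (Nat.find h))) then (σ.1 ⟨_, hv⟩).1.und
      else (default : Strat T).1 p)
  else if p ∈ (forcing 0 S O).F then
    (if T.Ch ((forcing 0 S O).μ p) p then (forcing 0 S O).μ p else (default : Strat T).1 p)
  else
    (if hv : Valid O K (d p S (rest O S)) then (σ.1 ⟨_, hv⟩).1.und
      else (default : Strat T).1 p)

open Classical in
/-- The strategy of player `0`. -/
noncomputable def val0 (σ : Strat (UT T O K hK)) (p : T.P) : T.P :=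
  if hp : T.len p ≤ K then (σ.1 ⟨a p, hp⟩).1.und else core0 σ (setAt σ p) p

theorem ch_und (σ : Strat (UT T O K hK)) (v : (UT T O K hK).P) :
    T.Ch (σ.1 v).1.und v.1.und := UT.und_ch (σ.2 v)

theorem ch_core0 (σ : Strat (UT T O K hK)) (S : Set T.P) (p : T.P) :
    T.Ch (core0 σ S p) p := by
  unfold core0
  split_ifs with h1 h2 h3 h4 h5
  · exact ch_und σ ⟨_, h2⟩
  · exact (default : Strat T).2 p
  · exact h4
  · exact (default : Strat T).2 p
  · exact ch_und σ ⟨_, h5⟩
  · exact (default : Strat T).2 p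

theorem ch_val0 (σ : Strat (UT T O K hK)) (p : T.P) : T.Ch (val0 σ p) p := by
  unfold val0
  split_ifs with h
  · exact ch_und σ ⟨a p, h⟩
  · exact ch_core0 σ _ p

theorem core0_congr (σ τ : Strat (UT T O K hK)) (S : Set T.P) (p : T.P)
    (h : ∀ v, (UT T O K hK).len v ≤ T.len p → σ.1 v = τ.1 v) : core0 σ S p = core0 τ S p := by
  unfold core0
  split_ifs with h1 h2 h3 h4 h5
  · rw [h ⟨_, h2⟩ le_rfl]
  · rfl
  · rfl
  · rfl
  · rw [h ⟨_, h5⟩ le_rfl]
  · rfl

theorem val0_congr (σ τ : Strat (UT T O K hK)) (n : ℕ)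
    (h : ∀ v, (UT T O K hK).len v ≤ n → σ.1 v = τ.1 v) (p : T.P) (hp : T.len p ≤ n) :
    val0 σ p = val0 τ p := by
  have hS : setAt σ p = setAt τ p := by
    unfold setAt
    rw [h ⟨a (T.anc p K), len_anc_le p K⟩]
    exact (len_anc_le' p K).trans hp
  unfold val0
  split_ifs with h1
  · rw [h ⟨a p, h1⟩ hp]
  · rw [hS]
    exact core0_congr σ τ _ p (fun v hv => h v (hv.trans hp))

theorem rest_QII {S : Set T.P} (hS : QI S) : QII O S (rest O S) := by
  refine ⟨fun s hs => hs.1, fun s hs hO => hs.2 ((forcing 0 S O).sub hO), ?_⟩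
  intro s hs
  refine ⟨?_, ?_⟩
  · intro hodd
    by_contra hcon
    apply hs.2
    apply (forcing 0 S O).opp s (by omega)
    intro q hq
    by_contra hqF
    exact hcon ⟨q, ⟨(hS s hs.1).2 hodd q hq, hqF⟩, hq⟩
  · intro heven r hr hrs
    refine ⟨hr, fun hrF => hs.2 ?_⟩
    exact (forcing 0 S O).own s heven r hr hrs hrF

/-- The data of a branch which is consistent with the strategy. -/
theorem start0 (σ : Strat (UT T O K hK)) (x : Br T)
    (hx : ∀ n, n % 2 = 0 → x.b (n + 1) = val0 σ (x.b n)) :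
    ∃ S : Set T.P, QI S ∧ x.b (K + 1) ∈ S ∧
      (σ.1 ⟨a (x.b K), (x.len K).le⟩).1 = b (x.b (K + 1)) S ∧
      ∀ n, K ≤ n → setAt σ (x.b n) = S := by
  have hl : T.len (x.b K) ≤ K := (x.len K).le
  set v0 := σ.1 ⟨a (x.b K), hl⟩ with hv0
  obtain ⟨S, hS⟩ := UT.ch_a' (σ.2 ⟨a (x.b K), hl⟩) (x.len K)
  have h1 : x.b (K + 1) = v0.1.und := by
    rw [hx K hK]
    unfold val0
    rw [dif_pos hl]
  have h2 : v0.1 = b (x.b (K + 1)) S := by rw [h1]; exact hS
  have h3 : Valid O K (b (x.b (K + 1)) S) := by rw [← h2]; exact v0.2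
  refine ⟨S, h3.2.1, h3.2.2, h2, ?_⟩
  intro n hn
  unfold setAt
  have h4 : (⟨a (T.anc (x.b n) K), len_anc_le (x.b n) K⟩ : (UT T O K hK).P) =
      ⟨a (x.b K), hl⟩ := by
    apply Subtype.ext
    change a (T.anc (x.b n) K) = a (x.b K)
    rw [x.anc hn]
  rw [h4, ← hv0, h2]
  rfl

theorem val0_of_lt (σ : Strat (UT T O K hK)) {p : T.P} (h : K < T.len p) :
    val0 σ p = core0 σ (setAt σ p) p := by
  unfold val0
  rw [dif_neg (by omega)]

section branch

variable (σ : Strat (UT T O K hK)) (x : Br T) (S : Set T.P)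

/-- The rule (F) applies in the winning region before the exit. -/
theorem core0_F (n : ℕ) (hno : ∀ m, K + 2 ≤ m → m ≤ n → x.b m ∉ O)
    (heven : n % 2 = 0) (hn : K + 2 ≤ n) (hF : x.b n ∈ (forcing 0 S O).F) :
    core0 σ S (x.b n) = (forcing 0 S O).μ (x.b n) := by
  have hE : ¬ ∃ m, K + 2 ≤ m ∧ m ≤ T.len (x.b n) ∧ T.anc (x.b n) m ∈ O := by
    rintro ⟨m, h1, h2, h3⟩
    rw [x.len] at h2
    rw [x.anc h2] at h3
    exact hno m h1 h2 h3
  have hmv := (forcing 0 S O).mv (x.b n) hF (hno n hn le_rfl) (by rw [x.len]; exact heven)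
  unfold core0
  rw [dif_neg hE, if_pos hF, if_pos hmv.1]

theorem core0_D (n : ℕ) (hno : ∀ m, K + 2 ≤ m → m ≤ n → x.b m ∉ O)
    (hF : x.b n ∉ (forcing 0 S O).F) (hv : Valid O K (d (x.b n) S (rest O S))) :
    core0 σ S (x.b n) = (σ.1 ⟨_, hv⟩).1.und := by
  have hE : ¬ ∃ m, K + 2 ≤ m ∧ m ≤ T.len (x.b n) ∧ T.anc (x.b n) m ∈ O := by
    rintro ⟨m, h1, h2, h3⟩
    rw [x.len] at h2
    rw [x.anc h2] at h3
    exact hno m h1 h2 h3
  unfold core0
  rw [dif_neg hE, if_neg hF, dif_pos hv]

variable (hS : QI S) (hq : x.b (K + 1) ∈ S)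
  (hcore : ∀ n, K + 2 ≤ n → n % 2 = 0 → x.b (n + 1) = core0 σ S (x.b n))

include hcore in
/-- The winning region is not left before the exit. -/
theorem persist (n : ℕ) (hn : K + 2 ≤ n) (hno : ∀ m, K + 2 ≤ m → m ≤ n → x.b m ∉ O)
    (hF : x.b n ∈ (forcing 0 S O).F) : x.b (n + 1) ∈ (forcing 0 S O).F := by
  rcases Nat.mod_two_eq_zero_or_one n with h | h
  · rw [hcore n hn h, core0_F σ x S n hno h hn hF]
    exact ((forcing 0 S O).mv (x.b n) hF (hno n hn le_rfl) (by rw [x.len]; exact h)).2.2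
  · exact (forcing 0 S O).all (x.b n) hF (hno n hn le_rfl) (by rw [x.len]; omega) _ (x.ch n)

include hcore in
theorem persist_le (n m : ℕ) (hm : K + 2 ≤ m) (hmn : m ≤ n)
    (hno : ∀ m, K + 2 ≤ m → m ≤ n → x.b m ∉ O) (hF : x.b m ∈ (forcing 0 S O).F) :
    x.b n ∈ (forcing 0 S O).F := by
  induction n, hmn using Nat.le_induction with
  | base => exact hF
  | succ k hk ih =>
    have hno' : ∀ m, K + 2 ≤ m → m ≤ k → x.b m ∉ O := fun m h1 h2 => hno m h1 (by omega)
    exact persist σ x S hcore k (by omega) hno' (ih hno')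

include hS hq hcore in
/-- Before the exit the branch stays in `S`. -/
theorem stay (n : ℕ) (hn : K + 1 ≤ n) (hno : ∀ m, K + 2 ≤ m → m < n → x.b m ∉ O) :
    x.b n ∈ S := by
  induction n using Nat.strong_induction_on with
  | _ n ih =>
    rcases Nat.eq_or_lt_of_le hn with h | h
    · rw [← h]; exact hq
    · obtain ⟨k, rfl⟩ : ∃ k, n = k + 1 := ⟨n - 1, by omega⟩
      have hk : K + 1 ≤ k := by omega
      have hkS : x.b k ∈ S := ih k (by omega) hk (fun m h1 h2 => hno m h1 (by omega))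
      rcases Nat.mod_two_eq_zero_or_one k with h2 | h2
      · have hk2 : K + 2 ≤ k := by omega
        have hno' : ∀ m, K + 2 ≤ m → m ≤ k → x.b m ∉ O := fun m h1 h2 => hno m h1 (by omega)
        rw [hcore k hk2 h2]
        by_cases hF : x.b k ∈ (forcing 0 S O).F
        · rw [core0_F σ x S k hno' h2 hk2 hF]
          exact ((forcing 0 S O).mv (x.b k) hF (hno' k hk2 le_rfl) (by rw [x.len]; exact h2)).2.1
        · have hv : Valid O K (d (x.b k) S (rest O S)) := by
            refine ⟨by rw [x.len]; exact hk2, hS, by rw [x.anc hk]; exact hq, rest_QII hS, ?_⟩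
            intro m h3 h4
            rw [x.len] at h4
            rw [x.anc h4]
            refine ⟨ih m (by omega) (by omega) (fun m' h5 h6 => hno m' h5 (by omega)), ?_⟩
            intro hmF
            exact hF (persist_le σ x S hcore k m h3 h4 hno' hmF)
          rw [core0_D σ x S k hno' hF hv]
          have hch := UT.ch_d (σ.2 ⟨_, hv⟩) rfl
          have hw := (σ.1 ⟨_, hv⟩).2
          rw [hch] at hw
          have hlen : T.len (σ.1 ⟨_, hv⟩).1.und = k + 1 := by
            rw [(ch_und σ ⟨_, hv⟩).2]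
            change T.len (x.b k) + 1 = _
            rw [x.len]
          have := hw.2.2.2.2 (k + 1) (by omega) (by rw [hlen])
          rw [T.anc_of_eq _ hlen] at this
          exact this.1
      · exact (hS (x.b k) hkS).2 (by rw [x.len]; exact h2) _ (x.ch k)

end branch

/-- Consistency below level `K + 1`. -/
theorem cons_low (σ : Strat (UT T O K hK)) (x : Br T) (x' : Br (UT T O K hK))
    (hx : ∀ n, n % 2 = 0 → x.b (n + 1) = val0 σ (x.b n))
    (h1 : ∀ n, n ≤ K → (x'.b n).1 = a (x.b n)) (n : ℕ) (hn : n < K) (heven : n % 2 = 0) :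
    x'.b (n + 1) = σ.1 (x'.b n) := by
  have hl : T.len (x.b n) ≤ K := by rw [x.len]; omega
  have e1 : x'.b n = ⟨a (x.b n), hl⟩ := Subtype.ext (h1 n hn.le)
  apply Subtype.ext
  rw [h1 (n + 1) hn, hx n heven]
  unfold val0
  rw [dif_pos hl, e1]
  exact (UT.ch_a (σ.2 ⟨a (x.b n), hl⟩) (by change T.len (x.b n) < K; rw [x.len]; exact hn)).symm

theorem cons_K (σ : Strat (UT T O K hK)) (x : Br T) (x' : Br (UT T O K hK)) (S : Set T.P)
    (hv : (σ.1 ⟨a (x.b K), (x.len K).le⟩).1 = b (x.b (K + 1)) S)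
    (h1 : ∀ n, n ≤ K → (x'.b n).1 = a (x.b n)) (h2 : (x'.b (K + 1)).1 = b (x.b (K + 1)) S) :
    x'.b (K + 1) = σ.1 (x'.b K) := by
  have e1 : x'.b K = ⟨a (x.b K), (x.len K).le⟩ := Subtype.ext (h1 K le_rfl)
  apply Subtype.ext
  rw [h2, e1, hv]

theorem lift0 (σ : Strat (UT T O K hK)) (x : Br T)
    (hx : ∀ n, n % 2 = 0 → x.b (n + 1) = val0 σ (x.b n)) :
    ∃ x' : Br (UT T O K hK), Cons 0 σ x' ∧ (UTm T O K hK).br x' = x := by
  classical
  obtain ⟨S, hS, hq, hv, hset⟩ := start0 σ x hx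
  have hcore : ∀ n, K + 2 ≤ n → n % 2 = 0 → x.b (n + 1) = core0 σ S (x.b n) := by
    intro n hn h2
    rw [hx n h2, val0_of_lt σ (by rw [x.len]; omega), hset n (by omega)]
  by_cases hex : ∃ n, K + 2 ≤ n ∧ x.b n ∈ O
  · -- there is an exit
    set n0 := Nat.find hex with hn0
    obtain ⟨hn0K, hn0O⟩ := Nat.find_spec hex
    have hmin : ∀ m, K + 2 ≤ m → m < n0 → x.b m ∉ O := fun m h1 h2 h3 =>
      Nat.find_min hex h2 ⟨h1, h3⟩
    have hp : ∀ n, K + 1 ≤ n → n ≤ n0 → x.b n ∈ S := fun n h1 h2 =>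
      stay σ x S hS hq hcore n h1 (fun m h3 h4 => hmin m h3 (by omega))
    obtain ⟨x', h1, h2, h3⟩ := UT.br_c (hK := hK) x S hS n0 hn0K hn0O hp
    refine ⟨x', ?_, ?_⟩
    · intro n hn
      rcases lt_trichotomy n K with h | h | h
      · exact cons_low σ x x' hx h1 n h hn
      · subst h
        exact cons_K σ x x' S hv h1 h2
      · have hnK : K + 2 ≤ n := by omega
        have e1 := h3 n hnK
        have hch := UT.ch_c (σ.2 (x'.b n)) e1
        have hlen : T.len (σ.1 (x'.b n)).1.und = n + 1 := by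
          rw [(ch_und σ (x'.b n)).2, e1]
          change T.len (x.b n) + 1 = _
          rw [x.len]
        apply Subtype.ext
        rw [h3 (n + 1) (by omega), hch]
        congr 1
        rcases Nat.lt_or_ge n n0 with hlt | hge
        · have hw := (σ.1 (x'.b n)).2
          rw [hch] at hw
          have hcomp := hw.2.2.2.2.2 (n + 1) (by rw [hlen]) (by rw [x.len]; exact hlt)
          rw [T.anc_of_eq _ hlen, x.anc (show n + 1 ≤ n0 from hlt)] at hcomp
          exact hcomp.symm
        · rw [hcore n hnK hn]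
          have hE : ∃ m, K + 2 ≤ m ∧ m ≤ T.len (x.b n) ∧ T.anc (x.b n) m ∈ O :=
            ⟨n0, hn0K, by rw [x.len]; exact hge, by rw [x.anc hge]; exact hn0O⟩
          have hfind : Nat.find hE = n0 := by
            rw [Nat.find_eq_iff]
            refine ⟨⟨hn0K, by rw [x.len]; exact hge, by rw [x.anc hge]; exact hn0O⟩, ?_⟩
            rintro m hm ⟨h4, h5, h6⟩
            rw [x.len] at h5
            rw [x.anc h5] at h6
            exact hmin m h4 hm h6
          have hval : Valid O K (c (x.b n) S (x.b n0)) := by rw [← e1]; exact (x'.b n).2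
          have hval' : Valid O K (c (x.b n) S (T.anc (x.b n) (Nat.find hE))) := by
            rw [hfind, x.anc hge]; exact hval
          have e2 : core0 σ S (x.b n) = (σ.1 ⟨_, hval'⟩).1.und := by
            unfold core0
            rw [dif_pos hE, dif_pos hval']
          rw [e2]
          have e3 : (⟨_, hval'⟩ : (UT T O K hK).P) = x'.b n := by
            apply Subtype.ext
            rw [e1]
            change c (x.b n) S (T.anc (x.b n) (Nat.find hE)) = _
            rw [hfind, x.anc hge]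
          rw [e3]
    · apply Br.ext'
      intro n
      change (x'.b n).1.und = x.b n
      rcases Nat.lt_or_ge n (K + 1) with h | h
      · rw [h1 n (by omega)]; rfl
      · rcases Nat.eq_or_lt_of_le h with h4 | h4
        · rw [← h4, h2]; rfl
        · rw [h3 n (by omega)]; rfl
  · -- no exit
    have hno : ∀ n, K + 2 ≤ n → x.b n ∉ O := fun n h1 h2 => hex ⟨n, h1, h2⟩
    have hF : ∀ n, K + 2 ≤ n → x.b n ∉ (forcing 0 S O).F := by
      intro m hm hmF
      have hall : ∀ n, m ≤ n → x.b n ∈ (forcing 0 S O).F := fun n hn =>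
        persist_le σ x S hcore n m hm hn (fun m' h1 _ => hno m' h1) hmF
      obtain ⟨n, hn, hnO⟩ := (forcing 0 S O).reach x m hmF (fun n hn heven _ => by
        rw [hcore n (by omega) heven]
        exact core0_F σ x S n (fun m' h1 _ => hno m' h1) heven (by omega) (hall n hn))
      exact hno n (by omega) hnO
    have hst : ∀ n, K + 1 ≤ n → x.b n ∈ S := fun n hn =>
      stay σ x S hS hq hcore n hn (fun m h1 _ => hno m h1)
    obtain ⟨x', h1, h2, h3⟩ := UT.br_d (hK := hK) x S (rest O S) hS hq (rest_QII hS)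
      (fun n hn => ⟨hst n (by omega), hF n hn⟩)
    refine ⟨x', ?_, ?_⟩
    · intro n hn
      rcases lt_trichotomy n K with h | h | h
      · exact cons_low σ x x' hx h1 n h hn
      · subst h
        exact cons_K σ x x' S hv h1 h2
      · have hnK : K + 2 ≤ n := by omega
        have e1 := h3 n hnK
        have hch := UT.ch_d (σ.2 (x'.b n)) e1
        have hval : Valid O K (d (x.b n) S (rest O S)) := by rw [← e1]; exact (x'.b n).2
        apply Subtype.ext
        rw [h3 (n + 1) (by omega), hch]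
        congr 1
        rw [hcore n hnK hn, core0_D σ x S n (fun m h1 _ => hno m h1) (hF n hnK) hval]
        have e3 : (⟨_, hval⟩ : (UT T O K hK).P) = x'.b n := Subtype.ext e1.symm
        rw [e3]
    · apply Br.ext'
      intro n
      change (x'.b n).1.und = x.b n
      rcases Nat.lt_or_ge n (K + 1) with h | h
      · rw [h1 n (by omega)]; rfl
      · rcases Nat.eq_or_lt_of_le h with h4 | h4
        · rw [← h4, h2]; rfl
        · rw [h3 n (by omega)]; rfl

end Phi0

open Phi0

theorem phi0_exists (T : GT.{u}) (O : Set T.P) (K : ℕ) (hK : K % 2 = 0) :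
    ∃ φ : Strat (UT T O K hK) → Strat T,
      (∀ σ τ n, (∀ p, (UT T O K hK).len p ≤ n → σ.1 p = τ.1 p) →
        ∀ p, T.len p ≤ n → (φ σ).1 p = (φ τ).1 p) ∧
      (∀ σ (x : Br T), Cons 0 (φ σ) x →
        ∃ x' : Br (UT T O K hK), Cons 0 σ x' ∧ (UTm T O K hK).br x' = x) ∧
      (∀ σ (v : (UT T O K hK).P), (UT T O K hK).len v < K →
        (φ σ).1 v.1.und = (σ.1 v).1.und) := by
  refine ⟨fun σ => ⟨val0 σ, ch_val0 σ⟩, ?_, ?_, ?_⟩
  · intro σ τ n h p hp
    exact val0_congr σ τ n h p hp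
  · intro σ x hx
    exact lift0 σ x hx
  · intro σ v hv
    have hl : T.len v.1.und < K := hv
    have e : v = ⟨a v.1.und, hl.le⟩ := UT.inj v _ hl.le hl.le rfl
    change val0 σ v.1.und = _
    unfold val0
    rw [dif_pos hl.le, ← e]

end Pool.Agent.BD
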