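import Pool.Agent.Helper71.BD.Main

/-!
# Borel determinacy for sequences
-/

set_option autoImplicit false

namespace Pool.Agent.BD

universe u

/-- The tree of finite sequences (newest element first). -/
def ListTree (A : Type u) [Nonempty A] : GT.{u} where
  P := List A
  len := List.length
  up := List.tail
  root := []
  len_root := rfl
  eq_root p h := List.eq_nil_of_length_eq_zero h
  len_up p := by rw [List.length_tail]
  ex p := ⟨Classical.arbitrary A :: p, rfl, rfl⟩

/-- The branch of a sequence. -/
def seqBr {A : Type u} [Nonempty A] (x : ℕ → A) : Br (ListTree A) where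
  b n := ((List.range n).map x).reverse
  b0 := rfl
  ch n := by
    refine ⟨?_, ?_⟩
    · change (((List.range (n + 1)).map x).reverse).tail = _
      rw [List.range_succ, List.map_append, List.reverse_append]
      rfl
    · change (((List.range (n + 1)).map x).reverse).length = (((List.range n).map x).reverse).length + 1
      simp

theorem seqBr_succ {A : Type u} [Nonempty A] (x : ℕ → A) (n : ℕ) :
    (seqBr x).b (n + 1) = x n :: (seqBr x).b n := by
  change ((List.range (n + 1)).map x).reverse = x n :: ((List.range n).map x).reverse
  rw [List.range_succ, List.map_append, List.reverse_append]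
  rfl

/-- The sequence of a branch. -/
noncomputable def brSeq {A : Type u} [Nonempty A] (y : Br (ListTree A)) (n : ℕ) : A :=
  (show List A from y.b (n + 1)).headD (Classical.arbitrary A)

theorem brSeq_seqBr {A : Type u} [Nonempty A] (x : ℕ → A) : brSeq (seqBr x) = x := by
  funext n
  unfold brSeq
  have h := seqBr_succ x n
  rw [h]
  rfl

theorem strat_eq {A : Type u} [Nonempty A] (σ : Strat (ListTree A)) (p : List A) :
    σ.1 p = (show List A from σ.1 p).headD (Classical.arbitrary A) :: p := by
  obtain ⟨h1, h2⟩ := σ.2 p
  change (show List A from σ.1 p).tail = p at h1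
  change (show List A from σ.1 p).length = p.length + 1 at h2
  generalize σ.1 p = q at h1 h2 ⊢
  change List A at q
  cases q with
  | nil => simp at h2
  | cons a q => simp only [List.tail_cons] at h1; subst h1; rfl

/-- **Borel determinacy** for games in which the two players alternately choose elements of an
arbitrary nonempty type `A` (player `0` first) and player `0` wants the resulting sequence to
lie in `W`; `W` belongs to the product sigma algebra on sequences, where all subsets of `A` are
measurable. -/
theorem borel_det_seq (A : Type u) [Nonempty A] (W : Set (ℕ → A))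
    (hW : @MeasurableSet (ℕ → A) (@MeasurableSpace.pi ℕ (fun _ => A) (fun _ => ⊤)) W) :
    (∃ σ : List A → A, ∀ x : ℕ → A,
        (∀ n, n % 2 = 0 → x n = σ ((List.range n).map x)) → x ∈ W) ∨
      (∃ σ : List A → A, ∀ x : ℕ → A,
        (∀ n, n % 2 = 1 → x n = σ ((List.range n).map x)) → x ∉ W) := by
  have hmeas : @MeasurableSet (Br (ListTree A)) (BorelBr (ListTree A)) (brSeq ⁻¹' W) := by
    let _ : MeasurableSpace A := ⊤
    let _ : MeasurableSpace (Br (ListTree A)) := BorelBr (ListTree A)
    have hm : Measurable (brSeq : Br (ListTree A) → (ℕ → A)) := by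
      refine measurable_pi_lambda _ (fun n => ?_)
      intro s _
      refine MeasurableSpace.measurableSet_generateFrom ?_
      intro y hy
      refine ⟨n + 1, fun y' hy' => ?_⟩
      change brSeq y' n ∈ s
      have : brSeq y' n = brSeq y n := by
        unfold brSeq
        rw [hy']
      rw [this]
      exact hy
    exact hm hW
  have hcons : ∀ (i : ℕ) (σ : Strat (ListTree A)) (x : ℕ → A),
      (∀ n, n % 2 = i → x n = (show List A from
        σ.1 ((List.range n).map x).reverse).headD (Classical.arbitrary A)) →
      Cons i σ (seqBr x) := by
    intro i σ x hx n hn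
    rw [seqBr_succ, hx n hn]
    exact (strat_eq σ _).symm
  rcases borel_det _ hmeas with ⟨σ, hσ⟩ | ⟨σ, hσ⟩
  · left
    refine ⟨fun l => (show List A from σ.1 l.reverse).headD (Classical.arbitrary A), ?_⟩
    intro x hx
    have h := hσ (seqBr x) (hcons 0 σ x hx)
    rw [Set.mem_preimage, brSeq_seqBr] at h
    exact h
  · right
    refine ⟨fun l => (show List A from σ.1 l.reverse).headD (Classical.arbitrary A), ?_⟩
    intro x hx
    have h := hσ (seqBr x) (hcons 1 σ x hx)
    rw [Set.mem_preimage, brSeq_seqBr] at h
    exact h

end Pool.Agent.BD
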