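import Pool.Agent.Helper71.BD.Compose

/-!
# The tree unravelling a closed set (Martin)

`T` is a tree, `O` an upward closed set of positions; the closed set is the set of branches
which avoid `O`. Player `0` moves at even levels, `K` is even. At level `K + 1` player `0`
adds a quasistrategy `S` for himself; at level `K + 2` player `1` adds either a position
`u ∈ O` reachable inside `S`, or a quasistrategy `S2 ⊆ S` for himself which avoids `O`.
-/

set_option autoImplicit false

namespace Pool.Agent.BD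

universe u

inductive UP0 (T : GT.{u}) : Type u
  | a (p : T.P) : UP0 T
  | b (q : T.P) (S : Set T.P) : UP0 T
  | c (r : T.P) (S : Set T.P) (u : T.P) : UP0 T
  | d (r : T.P) (S S2 : Set T.P) : UP0 T

namespace UP0

variable {T : GT.{u}}

/-- Underlying position of `T`. -/
def und : UP0 T → T.P
  | a p => p
  | b q _ => q
  | c r _ _ => r
  | d r _ _ => r

/-- Quasistrategy for player `0`. -/
def QI (S : Set T.P) : Prop :=
  ∀ s ∈ S, (T.len s % 2 = 0 → ∃ r ∈ S, T.Ch r s) ∧ (T.len s % 2 = 1 → ∀ r, T.Ch r s → r ∈ S)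

/-- Quasistrategy for player `1` inside `S`, avoiding `O`. -/
def QII (O S S2 : Set T.P) : Prop :=
  S2 ⊆ S ∧ (∀ s ∈ S2, s ∉ O) ∧
    ∀ s ∈ S2, (T.len s % 2 = 1 → ∃ r ∈ S2, T.Ch r s) ∧
      (T.len s % 2 = 0 → ∀ r ∈ S, T.Ch r s → r ∈ S2)

/-- The path from level `K + 1` up to `u` stays in `S`. -/
def Pth (K : ℕ) (S : Set T.P) (u : T.P) : Prop :=
  ∀ n, K + 1 ≤ n → n ≤ T.len u → T.anc u n ∈ S

/-- `r` and `u` lie on a common branch. -/
def Comp (r u : T.P) : Prop := ∀ n, n ≤ T.len r → n ≤ T.len u → T.anc r n = T.anc u n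

def Valid (O : Set T.P) (K : ℕ) : UP0 T → Prop
  | a p => T.len p ≤ K
  | b q S => T.len q = K + 1 ∧ QI S ∧ q ∈ S
  | c r S u => K + 2 ≤ T.len r ∧ K + 2 ≤ T.len u ∧ QI S ∧ Pth K S u ∧ u ∈ O ∧ Comp r u
  | d r S S2 => K + 2 ≤ T.len r ∧ QI S ∧ T.anc r (K + 1) ∈ S ∧ QII O S S2 ∧
      ∀ n, K + 2 ≤ n → n ≤ T.len r → T.anc r n ∈ S2

open Classical in
noncomputable def upp (K : ℕ) : UP0 T → UP0 T
  | a p => a (T.up p)
  | b q _ => a (T.up q)
  | c r S u => if T.len r = K + 2 then b (T.up r) S else c (T.up r) S u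
  | d r S S2 => if T.len r = K + 2 then b (T.up r) S else d (T.up r) S S2

theorem und_upp (K : ℕ) (v : UP0 T) : (upp K v).und = T.up v.und := by
  cases v with
  | a p => rfl
  | b q S => rfl
  | c r S u => simp only [upp]; split_ifs <;> rfl
  | d r S S2 => simp only [upp]; split_ifs <;> rfl

theorem valid_upp {O : Set T.P} {K : ℕ} {v : UP0 T} (hv : Valid O K v) :
    Valid O K (upp K v) := by
  cases v with
  | a p =>
    have h1 : T.len p ≤ K := hv
    show T.len (T.up p) ≤ K
    rw [T.len_up]; omega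
  | b q S =>
    obtain ⟨h1, h2, h3⟩ := hv
    show T.len (T.up q) ≤ K
    rw [T.len_up]; omega
  | c r S u =>
    obtain ⟨h1, h2, h3, h4, h5, h6⟩ := hv
    by_cases hr : T.len r = K + 2
    · have e : upp K (c r S u) = b (T.up r) S := by simp only [upp, hr, if_true]
      rw [e]
      refine ⟨by rw [T.len_up]; omega, h3, ?_⟩
      have e2 : T.up r = T.anc r (K + 1) := by
        rw [← T.up_anc r (by omega), T.anc_of_eq r hr]
      rw [e2, h6 (K + 1) (by omega) (by omega)]
      exact h4 (K + 1) le_rfl (by omega)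
    · have e : upp K (c r S u) = c (T.up r) S u := by simp only [upp, hr, if_false]
      rw [e]
      refine ⟨by rw [T.len_up]; omega, h2, h3, h4, h5, ?_⟩
      intro n hn hn'
      rw [T.len_up] at hn
      rw [T.anc_up r (by omega)]
      exact h6 n (by omega) hn'
  | d r S S2 =>
    obtain ⟨h1, h3, h4, h5, h6⟩ := hv
    by_cases hr : T.len r = K + 2
    · have e : upp K (d r S S2) = b (T.up r) S := by simp only [upp, hr, if_true]
      rw [e]
      refine ⟨by rw [T.len_up]; omega, h3, ?_⟩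
      have e2 : T.up r = T.anc r (K + 1) := by
        rw [← T.up_anc r (by omega), T.anc_of_eq r hr]
      rw [e2]; exact h4
    · have e : upp K (d r S S2) = d (T.up r) S S2 := by simp only [upp, hr, if_false]
      rw [e]
      refine ⟨by rw [T.len_up]; omega, h3, ?_, h5, ?_⟩
      · rw [T.anc_up r (by omega)]; exact h4
      · intro n hn hn'
        rw [T.len_up] at hn'
        rw [T.anc_up r (by omega)]
        exact h6 n hn (by omega)

/-- The position `anc s (n + 1)` along a child. -/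
private theorem comp_ch {r s u : T.P} (h : T.Ch s r) (hl : T.len u ≤ T.len r)
    (hc : Comp r u) : Comp s u := by
  intro n hn hn'
  rw [T.anc_ch h (by omega)]
  exact hc n (by omega) hn'

private theorem upp_c {K : ℕ} {r s u : T.P} {S : Set T.P} (h : T.Ch s r) (hl : K + 2 ≤ T.len r) :
    upp K (c s S u) = c r S u := by
  have : T.len s ≠ K + 2 := by rw [h.2]; omega
  simp only [upp, this, if_false, h.1]

private theorem upp_d {K : ℕ} {r s : T.P} {S S2 : Set T.P} (h : T.Ch s r)
    (hl : K + 2 ≤ T.len r) : upp K (d s S S2) = d r S S2 := by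
  have : T.len s ≠ K + 2 := by rw [h.2]; omega
  simp only [upp, this, if_false, h.1]

private theorem valid_ex_b {O : Set T.P} {K : ℕ} (hK : K % 2 = 0) {q : T.P} {S : Set T.P}
    (hl : T.len q = K + 1) (hS : QI S) (hq : q ∈ S) :
    ∃ w : UP0 T, Valid O K w ∧ upp K w = b q S ∧ T.len w.und = T.len q + 1 := by
  by_cases hu : ∃ u, u ∈ O ∧ K + 2 ≤ T.len u ∧ Pth K S u ∧ T.anc u (K + 1) = q
  · obtain ⟨u, huO, hul, hup, huq⟩ := hu
    have h1 : T.len (T.anc u (K + 2)) = K + 2 := T.len_anc u hul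
    refine ⟨c (T.anc u (K + 2)) S u, ⟨h1.ge, hul, hS, hup, huO, ?_⟩, ?_, ?_⟩
    · intro n hn hn'
      rw [h1] at hn
      exact T.anc_anc u hul hn
    · have e2 : T.up (T.anc u (K + 2)) = T.anc u (K + 1) := T.up_anc u (by omega)
      simp only [upp, h1, if_true]
      rw [e2, huq]
    · show T.len (T.anc u (K + 2)) = T.len q + 1
      rw [h1, hl]
  · push Not at hu
    obtain ⟨r, hr⟩ := T.ex q
    have hr' : T.Ch r q := hr
    have hlr : T.len r = K + 2 := by rw [hr.2, hl]
    refine ⟨d r S {s | K + 2 ≤ T.len s ∧ T.anc s (K + 1) = q ∧ Pth K S s}, ?_, ?_, ?_⟩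
    · have hrS : r ∈ S := (hS q hq).2 (by omega) r hr'
      have hanc : T.anc r (K + 1) = q := by
        rw [T.anc_ch hr' hl.ge, T.anc_of_eq q hl]
      refine ⟨hlr.ge, hS, ?_, ⟨?_, ?_, ?_⟩, ?_⟩
      · rw [hanc]; exact hq
      · rintro s ⟨h1, h2, h3⟩
        have := h3 (T.len s) (by omega) le_rfl
        rwa [T.anc_self] at this
      · rintro s ⟨h1, h2, h3⟩ hsO
        exact hu s hsO h1 h3 h2
      · rintro s ⟨h1, h2, h3⟩
        have hsS : s ∈ S := by
          have := h3 (T.len s) (by omega) le_rfl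
          rwa [T.anc_self] at this
        have key : ∀ t, t ∈ S → T.Ch t s →
            t ∈ {s | K + 2 ≤ T.len s ∧ T.anc s (K + 1) = q ∧ Pth K S s} := by
          intro t ht htc
          refine ⟨by rw [htc.2]; omega, ?_, ?_⟩
          · rw [T.anc_ch htc (by omega)]; exact h2
          · intro n hn hn'
            by_cases hn2 : n = T.len t
            · rw [T.anc_of_eq t hn2.symm]; exact ht
            · have h4 : n ≤ T.len s := by
                have := htc.2
                omega
              rw [T.anc_ch htc h4]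
              exact h3 n hn h4
        refine ⟨?_, ?_⟩
        · intro hodd
          obtain ⟨t, ht⟩ := T.ex s
          exact ⟨t, key t ((hS s hsS).2 hodd t ht) ht, ht⟩
        · intro _ t htS htc
          exact key t htS htc
      · intro n hn hn'
        have h5 : n = T.len r := by omega
        rw [T.anc_of_eq r h5.symm]
        refine ⟨hlr.ge, hanc, ?_⟩
        intro m hm hm'
        by_cases hm2 : m = T.len r
        · rw [T.anc_of_eq r hm2.symm]; exact hrS
        · have h4 : m = K + 1 := by omega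
          rw [h4, hanc]; exact hq
    · simp only [upp, hlr, if_true]
      rw [hr.1]
    · show T.len r = T.len q + 1
      exact hr.2

theorem valid_ex {O : Set T.P} {K : ℕ} (hK : K % 2 = 0) (v : UP0 T) (hv : Valid O K v) :
    ∃ w : UP0 T, Valid O K w ∧ upp K w = v ∧ T.len w.und = T.len v.und + 1 := by
  cases v with
  | a p =>
    have h1 : T.len p ≤ K := hv
    obtain ⟨q, hq⟩ := T.ex p
    by_cases hp : T.len p < K
    · refine ⟨a q, ?_, ?_, hq.2⟩
      · show T.len q ≤ K
        rw [hq.2]; exact hp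
      · simp only [upp, hq.1]
    · have h2 : T.len p = K := by omega
      refine ⟨b q Set.univ, ⟨by rw [hq.2, h2], ?_, Set.mem_univ _⟩, ?_, hq.2⟩
      · intro s _
        refine ⟨fun _ => ?_, fun _ r _ => Set.mem_univ r⟩
        obtain ⟨r, hr⟩ := T.ex s
        exact ⟨r, Set.mem_univ r, hr⟩
      · simp only [upp, hq.1]
  | b q S =>
    obtain ⟨h1, h2, h3⟩ := hv
    exact valid_ex_b hK h1 h2 h3
  | c r S u =>
    obtain ⟨h1, h2, h3, h4, h5, h6⟩ := hv
    by_cases hr : T.len r < T.len u
    · have hc : T.Ch (T.anc u (T.len r + 1)) r := by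
        have := T.ch_anc u hr
        rwa [← h6 (T.len r) le_rfl hr.le, T.anc_self] at this
      refine ⟨c (T.anc u (T.len r + 1)) S u, ⟨?_, h2, h3, h4, h5, ?_⟩, upp_c hc h1, hc.2⟩
      · rw [hc.2]; omega
      · intro n hn hn'
        rw [hc.2] at hn
        exact T.anc_anc u hr hn
    · obtain ⟨s, hs⟩ := T.ex r
      refine ⟨c s S u, ⟨?_, h2, h3, h4, h5, ?_⟩, upp_c hs h1, hs.2⟩
      · rw [hs.2]; omega
      · exact comp_ch hs (by omega) h6
  | d r S S2 =>
    obtain ⟨h1, h3, h4, h5, h6⟩ := hv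
    have hr2 : r ∈ S2 := by
      have := h6 (T.len r) h1 le_rfl
      rwa [T.anc_self] at this
    have key : ∃ s ∈ S2, T.Ch s r := by
      rcases Nat.mod_two_eq_zero_or_one (T.len r) with he | ho
      · obtain ⟨s, hsS, hs⟩ := (h3 r (h5.1 hr2)).1 he
        exact ⟨s, (h5.2.2 r hr2).2 he s hsS hs, hs⟩
      · exact (h5.2.2 r hr2).1 ho
    obtain ⟨s, hs2, hs⟩ := key
    refine ⟨d s S S2, ⟨?_, h3, ?_, h5, ?_⟩, upp_d hs h1, hs.2⟩
    · rw [hs.2]; omega
    · rw [T.anc_ch hs (by omega)]; exact h4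
    · intro n hn hn'
      by_cases hn2 : n = T.len s
      · rw [T.anc_of_eq s hn2.symm]; exact hs2
      · have h7 : n ≤ T.len r := by
          have := hs.2
          omega
        rw [T.anc_ch hs h7]
        exact h6 n hn h7

theorem valid_root {O : Set T.P} {K : ℕ} : Valid O K (a T.root) := by
  show T.len T.root ≤ K
  rw [T.len_root]; exact Nat.zero_le _

theorem eq_root' {O : Set T.P} {K : ℕ} (v : UP0 T) (hv : Valid O K v) (h : T.len v.und = 0) :
    v = a T.root := by
  cases v with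
  | a p => rw [T.eq_root p h]
  | b q S => exact absurd hv.1 (by rw [show T.len q = 0 from h]; omega)
  | c r S u => exact absurd hv.1 (by rw [show T.len r = 0 from h]; omega)
  | d r S S2 => exact absurd hv.1 (by rw [show T.len r = 0 from h]; omega)

end UP0

open UP0

/-- The unravelling tree. -/
noncomputable def UT (T : GT.{u}) (O : Set T.P) (K : ℕ) (hK : K % 2 = 0) : GT.{u} where
  P := {v : UP0 T // Valid O K v}
  len v := T.len v.1.und
  up v := ⟨upp K v.1, valid_upp v.2⟩
  root := ⟨a T.root, valid_root⟩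
  len_root := T.len_root
  eq_root v h := Subtype.ext (eq_root' v.1 v.2 h)
  len_up v := by
    show T.len (upp K v.1).und = T.len v.1.und - 1
    rw [und_upp, T.len_up]
  ex v := by
    obtain ⟨w, hw, h1, h2⟩ := valid_ex hK v.1 v.2
    exact ⟨⟨w, hw⟩, Subtype.ext h1, h2⟩

variable {T : GT.{u}} {O : Set T.P} {K : ℕ} {hK : K % 2 = 0}

/-- The projection of the unravelling tree. -/
noncomputable def UTm (T : GT.{u}) (O : Set T.P) (K : ℕ) (hK : K % 2 = 0) :
    TMap (UT T O K hK) T where
  π v := v.1.und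
  len_π _ := rfl
  up_π v := (und_upp K v.1).symm

theorem UT.len_def (v : (UT T O K hK).P) : (UT T O K hK).len v = T.len v.1.und := rfl

theorem UT.und_ch {v w : (UT T O K hK).P} (h : (UT T O K hK).Ch w v) :
    T.Ch w.1.und v.1.und := by
  refine ⟨?_, h.2⟩
  rw [← h.1]
  exact (und_upp K w.1).symm

/-! Inversion lemmas for children. -/

theorem UT.ch_a {v w : (UT T O K hK).P} (h : (UT T O K hK).Ch w v) (hl : T.len v.1.und < K) :
    w.1 = a w.1.und := by
  obtain ⟨h1, h2⟩ := h
  have h1' : upp K w.1 = v.1 := congrArg Subtype.val h1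
  have h2' : T.len w.1.und = T.len v.1.und + 1 := h2
  obtain ⟨w, hw⟩ := w
  cases w with
  | a p => rfl
  | b q S =>
    have h3 : T.len q = K + 1 := hw.1
    have h4 : T.len q = T.len v.1.und + 1 := h2'
    omega
  | c r S u =>
    have h3 : K + 2 ≤ T.len r := hw.1
    have h4 : T.len r = T.len v.1.und + 1 := h2'
    omega
  | d r S S2 =>
    have h3 : K + 2 ≤ T.len r := hw.1
    have h4 : T.len r = T.len v.1.und + 1 := h2'
    omega

theorem UT.ch_a' {v w : (UT T O K hK).P} (h : (UT T O K hK).Ch w v) (hl : T.len v.1.und = K) :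
    ∃ S, w.1 = b w.1.und S := by
  obtain ⟨h1, h2⟩ := h
  have h2' : T.len w.1.und = T.len v.1.und + 1 := h2
  obtain ⟨w, hw⟩ := w
  cases w with
  | a p =>
    have h3 : T.len p ≤ K := hw
    have h4 : T.len p = T.len v.1.und + 1 := h2'
    omega
  | b q S => exact ⟨S, rfl⟩
  | c r S u =>
    have h3 : K + 2 ≤ T.len r := hw.1
    have h4 : T.len r = T.len v.1.und + 1 := h2'
    omega
  | d r S S2 =>
    have h3 : K + 2 ≤ T.len r := hw.1
    have h4 : T.len r = T.len v.1.und + 1 := h2'
    omega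

theorem UT.ch_b {v w : (UT T O K hK).P} (h : (UT T O K hK).Ch w v) {q : T.P} {S : Set T.P}
    (hv : v.1 = b q S) : (∃ u, w.1 = c w.1.und S u) ∨ ∃ S2, w.1 = d w.1.und S S2 := by
  obtain ⟨h1, h2⟩ := h
  have h1' : upp K w.1 = v.1 := congrArg Subtype.val h1
  rw [hv] at h1'
  obtain ⟨w, hw⟩ := w
  cases w with
  | a p =>
    have h3 : (a (T.up p) : UP0 T) = b q S := h1'
    simp at h3
  | b q' S' =>
    have h3 : (a (T.up q') : UP0 T) = b q S := h1'
    simp at h3
  | c r S' u =>
    have h3 : upp K (c r S' u) = b q S := h1'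
    by_cases hr : T.len r = K + 2
    · simp only [upp, hr, if_true, UP0.b.injEq] at h3
      left
      refine ⟨u, ?_⟩
      show c r S' u = c r S u
      rw [h3.2]
    · simp only [upp, hr, if_false] at h3
      simp at h3
  | d r S' S2 =>
    have h3 : upp K (d r S' S2) = b q S := h1'
    by_cases hr : T.len r = K + 2
    · simp only [upp, hr, if_true, UP0.b.injEq] at h3
      right
      refine ⟨S2, ?_⟩
      show d r S' S2 = d r S S2
      rw [h3.2]
    · simp only [upp, hr, if_false] at h3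
      simp at h3

theorem UT.ch_c {v w : (UT T O K hK).P} (h : (UT T O K hK).Ch w v) {r u : T.P} {S : Set T.P}
    (hv : v.1 = c r S u) : w.1 = c w.1.und S u := by
  obtain ⟨h1, h2⟩ := h
  have h1' : upp K w.1 = v.1 := congrArg Subtype.val h1
  rw [hv] at h1'
  obtain ⟨w, hw⟩ := w
  cases w with
  | a p =>
    have h3 : (a (T.up p) : UP0 T) = c r S u := h1'
    simp at h3
  | b q' S' =>
    have h3 : (a (T.up q') : UP0 T) = c r S u := h1'
    simp at h3
  | c r' S' u' =>
    have h3 : upp K (c r' S' u') = c r S u := h1'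
    by_cases hr : T.len r' = K + 2
    · simp only [upp, hr, if_true] at h3
      simp at h3
    · simp only [upp, hr, if_false, UP0.c.injEq] at h3
      show c r' S' u' = c r' S u
      rw [h3.2.1, h3.2.2]
  | d r' S' S2 =>
    have h3 : upp K (d r' S' S2) = c r S u := h1'
    by_cases hr : T.len r' = K + 2
    · simp only [upp, hr, if_true] at h3
      simp at h3
    · simp only [upp, hr, if_false] at h3
      simp at h3

theorem UT.ch_d {v w : (UT T O K hK).P} (h : (UT T O K hK).Ch w v) {r : T.P} {S S2 : Set T.P}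
    (hv : v.1 = d r S S2) : w.1 = d w.1.und S S2 := by
  obtain ⟨h1, h2⟩ := h
  have h1' : upp K w.1 = v.1 := congrArg Subtype.val h1
  rw [hv] at h1'
  obtain ⟨w, hw⟩ := w
  cases w with
  | a p =>
    have h3 : (a (T.up p) : UP0 T) = d r S S2 := h1'
    simp at h3
  | b q' S' =>
    have h3 : (a (T.up q') : UP0 T) = d r S S2 := h1'
    simp at h3
  | c r' S' u' =>
    have h3 : upp K (c r' S' u') = d r S S2 := h1'
    by_cases hr : T.len r' = K + 2
    · simp only [upp, hr, if_true] at h3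
      simp at h3
    · simp only [upp, hr, if_false] at h3
      simp at h3
  | d r' S' S2' =>
    have h3 : upp K (d r' S' S2') = d r S S2 := h1'
    by_cases hr : T.len r' = K + 2
    · simp only [upp, hr, if_true] at h3
      simp at h3
    · simp only [upp, hr, if_false, UP0.d.injEq] at h3
      show d r' S' S2' = d r' S S2
      rw [h3.2.1, h3.2.2]

/-! Building branches of the unravelling tree. -/

/-- A branch of the unravelling tree from a sequence of positions. -/
theorem UT.exists_mk (x : Br T) (f : ℕ → UP0 T) (hund : ∀ n, (f n).und = x.b n)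
    (hv : ∀ n, Valid O K (f n)) (h0 : f 0 = a T.root) (hu : ∀ n, upp K (f (n + 1)) = f n) :
    ∃ x' : Br (UT T O K hK), ∀ n, (x'.b n).1 = f n := by
  refine ⟨⟨fun n => ⟨f n, hv n⟩, Subtype.ext h0, fun n => ⟨Subtype.ext (hu n), ?_⟩⟩,
    fun n => rfl⟩
  show T.len (f (n + 1)).und = T.len (f n).und + 1
  rw [hund, hund, x.len, x.len]

/-- A branch of `T` which passes through `u ∈ O` inside `S`. -/
theorem UT.br_c (x : Br T) (S : Set T.P) (hS : QI S) (n0 : ℕ) (hn0 : K + 2 ≤ n0)
    (hO : x.b n0 ∈ O) (hp : ∀ n, K + 1 ≤ n → n ≤ n0 → x.b n ∈ S) :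
    ∃ x' : Br (UT T O K hK), (∀ n, n ≤ K → (x'.b n).1 = a (x.b n)) ∧
      (x'.b (K + 1)).1 = b (x.b (K + 1)) S ∧
      ∀ n, K + 2 ≤ n → (x'.b n).1 = c (x.b n) S (x.b n0) := by
  have hf : ∃ f : ℕ → UP0 T, (∀ n, n ≤ K → f n = a (x.b n)) ∧ f (K + 1) = b (x.b (K + 1)) S ∧
      ∀ n, K + 2 ≤ n → f n = c (x.b n) S (x.b n0) := by
    refine ⟨fun n => if n ≤ K then a (x.b n) else if n = K + 1 then b (x.b n) S else
      c (x.b n) S (x.b n0), fun n hn => if_pos hn, ?_, fun n hn => ?_⟩
    · have h1 : ¬ (K + 1 ≤ K) := by omega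
      simp only [h1, if_false, if_true]
    · have h1 : ¬ (n ≤ K) := by omega
      have h2 : ¬ (n = K + 1) := by omega
      simp only [h1, h2, if_false]
  obtain ⟨f, h1, h2, h3⟩ := hf
  obtain ⟨x', hx'⟩ := UT.exists_mk (O := O) (K := K) (hK := hK) x f (by
    intro n
    rcases Nat.lt_trichotomy n (K + 1) with h | h | h
    · rw [h1 n (by omega)]; rfl
    · rw [h, h2]; rfl
    · rw [h3 n (by omega)]; rfl) (by
    intro n
    rcases Nat.lt_trichotomy n (K + 1) with h | h | h
    · rw [h1 n (by omega)]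
      show T.len (x.b n) ≤ K
      rw [x.len]; omega
    · rw [h, h2]
      exact ⟨x.len _, hS, hp _ le_rfl (by omega)⟩
    · rw [h3 n (by omega)]
      refine ⟨by rw [x.len]; omega, by rw [x.len]; omega, hS, ?_, hO, ?_⟩
      · intro m hm1 hm2
        rw [x.len] at hm2
        rw [x.anc hm2]
        exact hp m hm1 hm2
      · intro m hm1 hm2
        rw [x.len] at hm1 hm2
        rw [x.anc hm1, x.anc hm2]) (by
    rw [h1 0 (by omega), x.b0]) (by
    intro n
    rcases Nat.lt_trichotomy n (K + 1) with h | h | h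
    · rcases Nat.lt_or_ge (n + 1) (K + 1) with h' | h'
      · rw [h1 n (by omega), h1 (n + 1) (by omega)]
        show a (T.up (x.b (n + 1))) = _
        rw [x.up]
      · have h'' : n = K := by omega
        subst h''
        rw [h1 n le_rfl, h2]
        show a (T.up (x.b (n + 1))) = _
        rw [x.up]
    · subst h
      rw [h2, h3 (K + 1 + 1) (by omega)]
      simp only [upp]
      rw [if_pos (x.len _), x.up]
    · rw [h3 n (by omega), h3 (n + 1) (by omega)]
      simp only [upp]
      rw [if_neg (by rw [x.len]; omega), x.up])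
  exact ⟨x', fun n hn => by rw [hx', h1 n hn], by rw [hx', h2], fun n hn => by rw [hx', h3 n hn]⟩

/-- A branch of `T` which stays in `S2`. -/
theorem UT.br_d (x : Br T) (S S2 : Set T.P) (hS : QI S) (hq : x.b (K + 1) ∈ S)
    (h2 : QII O S S2) (hp : ∀ n, K + 2 ≤ n → x.b n ∈ S2) :
    ∃ x' : Br (UT T O K hK), (∀ n, n ≤ K → (x'.b n).1 = a (x.b n)) ∧
      (x'.b (K + 1)).1 = b (x.b (K + 1)) S ∧
      ∀ n, K + 2 ≤ n → (x'.b n).1 = d (x.b n) S S2 := by
  have hf : ∃ f : ℕ → UP0 T, (∀ n, n ≤ K → f n = a (x.b n)) ∧ f (K + 1) = b (x.b (K + 1)) S ∧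
      ∀ n, K + 2 ≤ n → f n = d (x.b n) S S2 := by
    refine ⟨fun n => if n ≤ K then a (x.b n) else if n = K + 1 then b (x.b n) S else
      d (x.b n) S S2, fun n hn => if_pos hn, ?_, fun n hn => ?_⟩
    · have h1 : ¬ (K + 1 ≤ K) := by omega
      simp only [h1, if_false, if_true]
    · have h1 : ¬ (n ≤ K) := by omega
      have h2 : ¬ (n = K + 1) := by omega
      simp only [h1, h2, if_false]
  obtain ⟨f, h1, hb, h3⟩ := hf
  obtain ⟨x', hx'⟩ := UT.exists_mk (O := O) (K := K) (hK := hK) x f (by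
    intro n
    rcases Nat.lt_trichotomy n (K + 1) with h | h | h
    · rw [h1 n (by omega)]; rfl
    · rw [h, hb]; rfl
    · rw [h3 n (by omega)]; rfl) (by
    intro n
    rcases Nat.lt_trichotomy n (K + 1) with h | h | h
    · rw [h1 n (by omega)]
      show T.len (x.b n) ≤ K
      rw [x.len]; omega
    · rw [h, hb]
      exact ⟨x.len _, hS, hq⟩
    · rw [h3 n (by omega)]
      refine ⟨by rw [x.len]; omega, hS, ?_, h2, ?_⟩
      · rw [x.anc (by omega)]; exact hq
      · intro m hm1 hm2
        rw [x.len] at hm2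
        rw [x.anc hm2]
        exact hp m hm1) (by
    rw [h1 0 (by omega), x.b0]) (by
    intro n
    rcases Nat.lt_trichotomy n (K + 1) with h | h | h
    · rcases Nat.lt_or_ge (n + 1) (K + 1) with h' | h'
      · rw [h1 n (by omega), h1 (n + 1) (by omega)]
        show a (T.up (x.b (n + 1))) = _
        rw [x.up]
      · have h'' : n = K := by omega
        subst h''
        rw [h1 n le_rfl, hb]
        show a (T.up (x.b (n + 1))) = _
        rw [x.up]
    · subst h
      rw [hb, h3 (K + 1 + 1) (by omega)]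
      simp only [upp]
      rw [if_pos (x.len _), x.up]
    · rw [h3 n (by omega), h3 (n + 1) (by omega)]
      simp only [upp]
      rw [if_neg (by rw [x.len]; omega), x.up])
  exact ⟨x', fun n hn => by rw [hx', h1 n hn], by rw [hx', hb], fun n hn => by rw [hx', h3 n hn]⟩

theorem UT.not_mem_of_c (x : Br (UT T O K hK)) {r u : T.P} {S : Set T.P}
    (h : (x.b (K + 2)).1 = c r S u) : ∃ n, ((UTm T O K hK).br x).b n ∈ O := by
  have hall : ∀ n, (x.b (K + 2 + n)).1 = c (x.b (K + 2 + n)).1.und S u := by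
    intro n
    induction n with
    | zero => rw [Nat.add_zero, h]; rfl
    | succ n ih => exact UT.ch_c (x.ch (K + 2 + n)) ih
  have hl : ∀ n, T.len (x.b n).1.und = n := fun n => x.len n
  have hv := (x.b (K + 2 + T.len u)).2
  rw [hall (T.len u)] at hv
  obtain ⟨h1, h2, h3, h4, h5, h6⟩ := hv
  have h7 := h6 (T.len u) (by rw [hl]; omega) le_rfl
  rw [T.anc_self] at h7
  refine ⟨T.len u, ?_⟩
  have h8 := ((UTm T O K hK).br x).anc (n := T.len u) (m := K + 2 + T.len u) (by omega)
  rw [← h8]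
  have h9 : ((UTm T O K hK).br x).b (K + 2 + T.len u) = (x.b (K + 2 + T.len u)).1.und := rfl
  rw [h9, h7]
  exact h5

theorem UT.mem_of_d (hO : ∀ p q, T.Ch q p → p ∈ O → q ∈ O) (x : Br (UT T O K hK)) {r : T.P}
    {S S2 : Set T.P} (h : (x.b (K + 2)).1 = d r S S2) (n : ℕ) :
    ((UTm T O K hK).br x).b n ∉ O := by
  have hall : ∀ n, (x.b (K + 2 + n)).1 = d (x.b (K + 2 + n)).1.und S S2 := by
    intro n
    induction n with
    | zero => rw [Nat.add_zero, h]; rfl
    | succ n ih => exact UT.ch_d (x.ch (K + 2 + n)) ih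
  have hl : ∀ n, T.len (x.b n).1.und = n := fun n => x.len n
  have hup : ∀ m, ((UTm T O K hK).br x).b n ∈ O → ((UTm T O K hK).br x).b (n + m) ∈ O := by
    intro m hm
    induction m with
    | zero => exact hm
    | succ m ih => exact hO _ _ (((UTm T O K hK).br x).ch (n + m)) ih
  intro hcon
  have h1 := hup (K + 2) hcon
  have hv := (x.b (K + 2 + n)).2
  rw [hall n] at hv
  obtain ⟨h2, h3, h4, h5, h6⟩ := hv
  have h7 := h6 (K + 2 + n) (by omega) (by rw [hl])
  rw [T.anc_of_eq _ (hl _)] at h7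
  refine h5.2.1 _ h7 ?_
  have h8 : ((UTm T O K hK).br x).b (K + 2 + n) = (x.b (K + 2 + n)).1.und := rfl
  rw [← h8, Nat.add_comm (K + 2) n]
  exact h1

/-- The preimage of the closed set is clopen. -/
theorem UT.isCO (hO : ∀ p q, T.Ch q p → p ∈ O → q ∈ O) :
    IsCO ((UTm T O K hK).br ⁻¹' {x : Br T | ∀ n, x.b n ∉ O}) := by
  intro x
  refine ⟨K + 2, fun y hy => ?_⟩
  have hl : T.len (x.b K).1.und = K := x.len K
  obtain ⟨S, hS⟩ := UT.ch_a' (x.ch K) hl
  rcases UT.ch_b (x.ch (K + 1)) hS with ⟨u, hu⟩ | ⟨S2, hS2⟩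
  · have h1 : (x.b (K + 2)).1 = c (x.b (K + 2)).1.und S u := hu
    have h2 : (y.b (K + 2)).1 = c (x.b (K + 2)).1.und S u := by rw [hy]; exact h1
    obtain ⟨n, hn⟩ := UT.not_mem_of_c x h1
    obtain ⟨m, hm⟩ := UT.not_mem_of_c y h2
    exact ⟨fun h => absurd hm (h m), fun h => absurd hn (h n)⟩
  · have h1 : (x.b (K + 2)).1 = d (x.b (K + 2)).1.und S S2 := hS2
    have h2 : (y.b (K + 2)).1 = d (x.b (K + 2)).1.und S S2 := by rw [hy]; exact h1
    exact ⟨fun _ => UT.mem_of_d hO x h1, fun _ => UT.mem_of_d hO y h2⟩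

theorem UT.inj (v w : (UT T O K hK).P) (hv : T.len v.1.und ≤ K) (hw : T.len w.1.und ≤ K)
    (h : v.1.und = w.1.und) : v = w := by
  have key : ∀ v : (UT T O K hK).P, T.len v.1.und ≤ K → v.1 = a v.1.und := by
    rintro ⟨v, hv⟩ hl
    cases v with
    | a p => rfl
    | b q S =>
      have h3 : T.len q = K + 1 := hv.1
      have h4 : T.len q ≤ K := hl
      omega
    | c r S u =>
      have h3 : K + 2 ≤ T.len r := hv.1
      have h4 : T.len r ≤ K := hl
      omega
    | d r S S2 =>
      have h3 : K + 2 ≤ T.len r := hv.1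
      have h4 : T.len r ≤ K := hl
      omega
  apply Subtype.ext
  rw [key v hv, key w hw, h]

theorem UT.surj (p : T.P) (hp : T.len p ≤ K) : ∃ v : (UT T O K hK).P, v.1 = a p :=
  ⟨⟨a p, hp⟩, rfl⟩

end Pool.Agent.BD
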